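import Pool.Agent.J4H58.XC.Asm2
import Pool.Agent.J4H58.OC.Asm3
import Pool.Agent.J4H48.OC.Srt

/-! Assembly, part 3: the variance in the direction `(1, ..., 1)` (project XC). -/

set_option autoImplicit false

namespace Pool.Agent.J4H58.XC

open MeasureTheory Set Filter Topology ProbabilityTheory
open scoped ENNReal InnerProductSpace
open Pool.Agent.W695.KH (Eu)
open Pool.Agent.J4H58.OC (ordE LDn PI SymF dgn)

variable {n : ℕ}

/-- change of the sign of one coordinate -/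
noncomputable def flip (i : Fin n) : Eu (Fin n) ≃ₗᵢ[ℝ] Eu (Fin n) :=
  LinearIsometryEquiv.piLpCongrRight 2 fun j =>
    if j = i then LinearIsometryEquiv.neg ℝ else LinearIsometryEquiv.refl ℝ ℝ

theorem flip_self (i : Fin n) (x : Eu (Fin n)) : flip i x i = -x i := by
  simp [flip]

theorem flip_ne {i j : Fin n} (h : j ≠ i) (x : Eu (Fin n)) : flip i x j = x j := by
  simp [flip, h]

theorem int_flip (i : Fin n) (G : Eu (Fin n) → ℝ) : ∫ x, G (flip i x) = ∫ x, G x :=
  (flip i).measurePreserving.integral_comp (flip i).toHomeomorph.measurableEmbedding G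

/-- permutation of the coordinates -/
noncomputable def perm (p : Equiv.Perm (Fin n)) : Eu (Fin n) ≃ₗᵢ[ℝ] Eu (Fin n) :=
  LinearIsometryEquiv.piLpCongrLeft 2 ℝ ℝ p.symm

theorem perm_apply (p : Equiv.Perm (Fin n)) (x : Eu (Fin n)) (i : Fin n) :
    perm p x i = x (p i) := by
  simp [perm, LinearIsometryEquiv.piLpCongrLeft_apply, Equiv.piCongrLeft'_apply]

theorem int_perm (p : Equiv.Perm (Fin n)) (G : Eu (Fin n) → ℝ) : ∫ x, G (perm p x) = ∫ x, G x :=
  (perm p).measurePreserving.integral_comp (perm p).toHomeomorph.measurableEmbedding G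

theorem rho_flip {ρ : Eu (Fin n) → ℝ} (hρ : Sd ρ) (i : Fin n) (x : Eu (Fin n)) :
    ρ (flip i x) = ρ x := by
  refine hρ.inv 1 x (flip i x) fun j => ?_
  by_cases h : j = i
  · rw [h, flip_self, abs_neg]
    rfl
  · rw [flip_ne h]
    rfl

theorem rho_perm {ρ : Eu (Fin n) → ℝ} (hρ : Sd ρ) (p : Equiv.Perm (Fin n)) (x : Eu (Fin n)) :
    ρ (perm p x) = ρ x :=
  hρ.inv p x (perm p x) fun j => by rw [perm_apply]

theorem mom_eq {ρ : Eu (Fin n) → ℝ} (hρ : Sd ρ) (i j : Fin n) :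
    ∫ x : Eu (Fin n), x i ^ 2 * ρ x = ∫ x : Eu (Fin n), x j ^ 2 * ρ x := by
  have h := int_perm (Equiv.swap i j) fun x : Eu (Fin n) => x i ^ 2 * ρ x
  rw [← h]
  simp only [perm_apply, rho_perm hρ, Equiv.swap_apply_left]

theorem cross {ρ : Eu (Fin n) → ℝ} (hρ : Sd ρ) {i j : Fin n} (hij : i ≠ j) :
    ∫ x : Eu (Fin n), x i * x j * ρ x = 0 := by
  have h := int_flip i fun x : Eu (Fin n) => x i * x j * ρ x
  simp only [flip_self, flip_ne hij.symm, rho_flip hρ] at h
  have e : ∀ x : Eu (Fin n), -x i * x j * ρ x = -(x i * x j * ρ x) := fun x => by ring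
  simp only [e, integral_neg] at h
  linarith

theorem first {ρ : Eu (Fin n) → ℝ} (hρ : Sd ρ) (i : Fin n) :
    ∫ x : Eu (Fin n), x i * ρ x = 0 := by
  have h := int_flip i fun x : Eu (Fin n) => x i * ρ x
  simp only [flip_self, rho_flip hρ] at h
  have e : ∀ x : Eu (Fin n), -x i * ρ x = -(x i * ρ x) := fun x => by ring
  simp only [e, integral_neg] at h
  linarith

theorem intble1 {ρ : Eu (Fin n) → ℝ} (hρ : Sd ρ) (hint : Integrable ρ)
    (hint2 : ∀ i, Integrable fun x : Eu (Fin n) => x i ^ 2 * ρ x) (i : Fin n) :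
    Integrable fun x : Eu (Fin n) => x i * ρ x := by
  refine (hint.add (hint2 i)).mono' ?_ (Eventually.of_forall fun x => ?_)
  · exact (Measurable.mul (by fun_prop) hρ.meas).aestronglyMeasurable
  · rw [Real.norm_eq_abs, abs_mul, abs_of_nonneg (hρ.nonneg x)]
    show |x i| * ρ x ≤ ρ x + x i ^ 2 * ρ x
    have h1 : |x i| ≤ 1 + x i ^ 2 := by
      rw [← sq_abs]
      nlinarith [sq_nonneg (|x i| - 1), abs_nonneg (x i)]
    nlinarith [hρ.nonneg x]

theorem intble2 {ρ : Eu (Fin n) → ℝ} (hρ : Sd ρ)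
    (hint2 : ∀ i, Integrable fun x : Eu (Fin n) => x i ^ 2 * ρ x) (i j : Fin n) :
    Integrable fun x : Eu (Fin n) => x i * x j * ρ x := by
  refine ((hint2 i).add (hint2 j)).mono' ?_ (Eventually.of_forall fun x => ?_)
  · exact (Measurable.mul (by fun_prop) hρ.meas).aestronglyMeasurable
  · rw [Real.norm_eq_abs, abs_mul, abs_of_nonneg (hρ.nonneg x)]
    show |x i * x j| * ρ x ≤ x i ^ 2 * ρ x + x j ^ 2 * ρ x
    have h1 : |x i * x j| ≤ x i ^ 2 + x j ^ 2 := by
      rw [abs_mul, ← sq_abs (x i), ← sq_abs (x j)]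
      nlinarith [sq_nonneg (|x i| - |x j|), abs_nonneg (x i), abs_nonneg (x j)]
    nlinarith [hρ.nonneg x]

theorem sum_sq {ρ : Eu (Fin n) → ℝ} (hρ : Sd ρ)
    (hint2 : ∀ i, Integrable fun x : Eu (Fin n) => x i ^ 2 * ρ x) {v : ℝ}
    (hv : ∀ i, ∫ x : Eu (Fin n), x i ^ 2 * ρ x = v) :
    ∫ x : Eu (Fin n), (∑ i, x i) ^ 2 * ρ x = n * v := by
  have e : ∀ x : Eu (Fin n), (∑ i, x i) ^ 2 * ρ x = ∑ i, ∑ j, x i * x j * ρ x := by
    intro x
    rw [sq, Finset.sum_mul_sum, Finset.sum_mul]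
    refine Finset.sum_congr rfl fun i _ => ?_
    rw [Finset.sum_mul]
  simp only [e]
  rw [integral_finsetSum _ fun i _ => integrable_finsetSum _ fun j _ => intble2 hρ hint2 i j]
  have h1 : ∀ i : Fin n, ∫ x : Eu (Fin n), ∑ j, x i * x j * ρ x = v := by
    intro i
    rw [integral_finsetSum _ fun j _ => intble2 hρ hint2 i j, Finset.sum_eq_single i]
    · rw [← hv i]
      congr 1
      funext x
      ring
    · intro j _ hj
      exact cross hρ hj.symm
    · intro h
      exact absurd (Finset.mem_univ i) h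
  simp [h1]

theorem sum_first {ρ : Eu (Fin n) → ℝ} (hρ : Sd ρ) (hint : Integrable ρ)
    (hint2 : ∀ i, Integrable fun x : Eu (Fin n) => x i ^ 2 * ρ x) :
    ∫ x : Eu (Fin n), (∑ i, x i) * ρ x = 0 := by
  have e : ∀ x : Eu (Fin n), (∑ i, x i) * ρ x = ∑ i, x i * ρ x := fun x => by
    rw [Finset.sum_mul]
  simp only [e]
  rw [integral_finsetSum _ fun i _ => intble1 hρ hint hint2 i]
  exact Finset.sum_eq_zero fun i _ => first hρ i

/-- the law of `ρ` conditioned on the cone of `R` -/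
noncomputable def muR (ρ : Eu (Fin n) → ℝ) (R : Fin n → Fin n → Prop) : Measure (Eu (Fin n)) :=
  volume.withDensity fun x => ENNReal.ofReal (rR ρ R x)

theorem int_muR {ρ : Eu (Fin n) → ℝ} {R : Fin n → Fin n → Prop} (hL : LDn (rR ρ R))
    (G : Eu (Fin n) → ℝ) :
    ∫ x, G x ∂(muR ρ R) = (∫ x in ordE R, G x * ρ x) / ∫ x in ordE R, ρ x := by
  classical
  unfold muR
  rw [Pool.Agent.J4H58.OC.int_dens hL, ← integral_indicator (Pool.Agent.J4H48.OC.ordE_meas R),
    ← integral_div]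
  congr 1
  funext x
  unfold rR
  by_cases h : x ∈ ordE R
  · rw [if_pos h, indicator_of_mem h]
    ring
  · rw [if_neg h, indicator_of_notMem h]
    simp

theorem mass {ρ : Eu (Fin n) → ℝ} (hρ : Sd ρ) (hint : Integrable ρ) (hone : ∫ x, ρ x = 1)
    {R : Fin n → Fin n → Prop} (h1 : ∀ a b, R a b → R b a → a = b)
    (h2 : ∀ a b c, R a b → R b c → R a c) :
    0 < ∫ x in ordE R, ρ x ∧ ∀ G : Eu (Fin n) → ℝ, (Integrable fun x => G x * ρ x) →
      SymF (fun x => G x * ρ x) → (∫ x in ordE R, G x * ρ x) / ∫ x in ordE R, ρ x =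
        ∫ x, G x * ρ x := by
  obtain ⟨c, hc, H, -⟩ := Pool.Agent.J4H48.OC.t_SRT n R h1 h2
  have hs : SymF ρ := by
    intro p x
    exact hρ.inv p x _ fun i => rfl
  have h3 := H ρ hint hs
  rw [hone, mul_one] at h3
  refine ⟨by rw [h3]; exact hc, fun G hG hGs => ?_⟩
  rw [H _ hG hGs, h3]
  field_simp

theorem muR_prob {ρ : Eu (Fin n) → ℝ} {R : Fin n → Fin n → Prop} (hL : LDn (rR ρ R)) :
    IsProbabilityMeasure (muR ρ R) := by
  refine ⟨?_⟩
  unfold muR
  rw [withDensity_apply _ MeasurableSet.univ, setLIntegral_univ,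
    ← ofReal_integral_eq_lintegral_ofReal hL.int (Eventually.of_forall hL.nonneg), hL.one]
  simp

theorem dgn_norm (hn : 1 ≤ n) : ‖dgn n‖ = 1 := by
  have hn0 : (0 : ℝ) < n := by exact_mod_cast hn
  have h1 : ‖dgn n‖ ^ 2 = 1 := by
    rw [EuclideanSpace.norm_sq_eq]
    unfold dgn
    simp only [one_div, norm_inv, Real.norm_eq_abs, abs_of_nonneg (Real.sqrt_nonneg _), inv_pow,
      Real.sq_sqrt hn0.le, Finset.sum_const, Finset.card_univ, Fintype.card_fin, nsmul_eq_mul]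
    field_simp
  nlinarith [norm_nonneg (dgn n)]

/-- the variance in the direction `(1, ..., 1)` does not depend on `R` -/
theorem dir_var {ρ : Eu (Fin n) → ℝ} (hn : 1 ≤ n) (hρ : Sd ρ) (hint : Integrable ρ)
    (hone : ∫ x, ρ x = 1)
    (hint2 : ∀ i, Integrable fun x : Eu (Fin n) => x i ^ 2 * ρ x) {v : ℝ}
    (hv : ∀ i, ∫ x : Eu (Fin n), x i ^ 2 * ρ x = v)
    {R : Fin n → Fin n → Prop} (h1 : ∀ a b, R a b → R b a → a = b)
    (h2 : ∀ a b c, R a b → R b c → R a c) (hL : LDn (rR ρ R)) :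
    variance (fun x => ⟪dgn n, x⟫_ℝ) (muR ρ R) = v := by
  have hn0 : (0 : ℝ) < n := by exact_mod_cast hn
  have hprob := muR_prob hL
  obtain ⟨hpos, hM⟩ := mass hρ hint hone h1 h2
  have hsum : ∀ (p : Equiv.Perm (Fin n)) (x : Eu (Fin n)), ∑ i, x (p i) = ∑ i, x i := fun p x =>
    Equiv.sum_comp p fun i => x i
  have hrp : ∀ (p : Equiv.Perm (Fin n)) (x : Eu (Fin n)),
      ρ (WithLp.toLp 2 fun i => x (p i)) = ρ x := fun p x => hρ.inv p x _ fun i => rfl
  -- `∫ (∑ x)² dμ = n v`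
  have i1 : Integrable fun x : Eu (Fin n) => (∑ i, x i) * ρ x := by
    have e : (fun x : Eu (Fin n) => (∑ i, x i) * ρ x) = fun x => ∑ i, x i * ρ x := by
      funext x
      rw [Finset.sum_mul]
    rw [e]
    exact integrable_finsetSum _ fun i _ => intble1 hρ hint hint2 i
  have i2 : Integrable fun x : Eu (Fin n) => (∑ i, x i) ^ 2 * ρ x := by
    have e : (fun x : Eu (Fin n) => (∑ i, x i) ^ 2 * ρ x) =
        fun x => ∑ i, ∑ j, x i * x j * ρ x := by
      funext x
      rw [sq, Finset.sum_mul_sum, Finset.sum_mul]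
      refine Finset.sum_congr rfl fun i _ => ?_
      rw [Finset.sum_mul]
    rw [e]
    exact integrable_finsetSum _ fun i _ => integrable_finsetSum _ fun j _ => intble2 hρ hint2 i j
  have e1 : ∫ x : Eu (Fin n), (∑ i, x i) ∂(muR ρ R) = 0 := by
    rw [int_muR hL, hM _ i1 (fun p x => by
      show (∑ i, x (p i)) * ρ (WithLp.toLp 2 fun i => x (p i)) = (∑ i, x i) * ρ x
      rw [hsum, hrp]), sum_first hρ hint hint2]
  have e2 : ∫ x : Eu (Fin n), (∑ i, x i) ^ 2 ∂(muR ρ R) = n * v := by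
    rw [int_muR hL, hM _ i2 (fun p x => by
      show (∑ i, x (p i)) ^ 2 * ρ (WithLp.toLp 2 fun i => x (p i)) = (∑ i, x i) ^ 2 * ρ x
      rw [hsum, hrp]), sum_sq hρ hint2 hv]
  have m2 : MemLp (fun x : Eu (Fin n) => ∑ i, x i) 2 (muR ρ R) := by
    rw [memLp_two_iff_integrable_sq (by fun_prop)]
    unfold muR
    rw [integrable_withDensity_iff hL.meas.ennreal_ofReal
      (Eventually.of_forall fun x => ENNReal.ofReal_lt_top)]
    have i3 : Integrable fun x : Eu (Fin n) => (ordE R).indicator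
        (fun x : Eu (Fin n) => (∑ i, x i) ^ 2 * ρ x) x / ∫ y in ordE R, ρ y :=
      (i2.indicator (Pool.Agent.J4H48.OC.ordE_meas R)).div_const _
    refine i3.congr (Eventually.of_forall fun x => ?_)
    show _ = (∑ i, x i) ^ 2 * (ENNReal.ofReal (rR ρ R x)).toReal
    rw [ENNReal.toReal_ofReal (hL.nonneg x)]
    unfold rR
    dsimp only
    by_cases h : x ∈ ordE R
    · rw [if_pos h, indicator_of_mem h]
      ring
    · rw [if_neg h, indicator_of_notMem h]
      simp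
  have e3 : variance (fun x : Eu (Fin n) => ∑ i, x i) (muR ρ R) = n * v := by
    rw [variance_eq_sub m2, e1]
    have : (∫ x : Eu (Fin n), ((fun x : Eu (Fin n) => ∑ i, x i) ^ 2) x ∂(muR ρ R)) = n * v := e2
    rw [this]
    ring
  have h3 : (fun x : Eu (Fin n) => ⟪dgn n, x⟫_ℝ) = fun x => 1 / Real.sqrt n * ∑ i, x i := by
    funext x
    unfold dgn
    rw [PiLp.inner_apply, Finset.mul_sum]
    apply Finset.sum_congr rfl
    intro i _
    simp [mul_comm]
  rw [h3, variance_const_mul, e3]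
  have h4 : (1 / Real.sqrt n) ^ 2 = 1 / (n : ℝ) := by
    rw [div_pow, Real.sq_sqrt hn0.le, one_pow]
  rw [h4]
  field_simp

end Pool.Agent.J4H58.XC
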