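import Pool.Agent.J4H58.XC.Stm5

/-! Two more statements (project XC). -/

set_option autoImplicit false

namespace Pool.Agent.J4H58.XC

open MeasureTheory Set Filter Topology ProbabilityTheory
open scoped ENNReal InnerProductSpace
open Pool.Agent.W695.KH (Eu)
open Pool.Agent.J4H58.OC (ordE LDn PI)

/-- MOM: exponential decay of log-concave densities. (`{ρ ≥ δ}` contains a ball `B(x₀, r)`; if `ρ x ≥ δ / e`
then `ρ ≥ δ / e` on the convex hull of `x` and the ball, whose volume is at least `c |x - x₀|`, so this is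
impossible for `|x - x₀| > R₀`; then `ρ x ≤ ρ x₀ exp (-|x - x₀| / R₀)` there by log-concavity; and
`ρ x` is bounded because `ρ ≥ √(δ ρ x)` on the ball `B((x + x₀) / 2, r / 2)`.) -/
def S_MOM : Prop := ∀ (n : ℕ) (ρ : Eu (Fin n) → ℝ), 1 ≤ n → LDn ρ →
  ∃ A b : ℝ, 0 < b ∧ (∀ x, ρ x ≤ A * Real.exp (-b * ‖x‖)) ∧
    Integrable (fun x => ‖x‖ ^ 2 * ρ x) ∧ 0 < ∫ x, ‖x‖ ^ 2 * ρ x

/-- BOD: the density of the uniform measure of a 1-symmetric convex body -/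
def S_BOD : Prop := ∀ (n : ℕ) (K : Set (Eu (Fin n))) (R : Fin n → Fin n → Prop), 1 ≤ n → IsCompact K →
  Convex ℝ K → (interior K).Nonempty →
  (∀ (σ : Equiv.Perm (Fin n)) (x y : Eu (Fin n)), (∀ i, |y i| = |x (σ i)|) → x ∈ K → y ∈ K) →
  (∀ a b, R a b → R b a → a = b) → (∀ a b c, R a b → R b c → R a c) →
  IsCompact (K ∩ ordE R) ∧ Convex ℝ (K ∩ ordE R) ∧ (interior (K ∩ ordE R)).Nonempty ∧
  ∃ ρ : Eu (Fin n) → ℝ, Sd ρ ∧ Integrable ρ ∧ ∫ x, ρ x = 1 ∧ 0 < ∫ x in ordE R, ρ x ∧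
    (volume (K ∩ ordE R))⁻¹ • volume.restrict (K ∩ ordE R) =
      volume.withDensity fun x => ENNReal.ofReal (rR ρ R x)

end Pool.Agent.J4H58.XC
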