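import Pool.Agent.J4H58.XC.X17
import Pool.Agent.J4H58.XC.Stm6

/-! The comparison theorem for permutation invariant log-concave measures (project XC, A4). -/

set_option autoImplicit false

namespace Pool.Agent.J4H58.XC

open MeasureTheory Set Filter Topology ProbabilityTheory
open scoped ENNReal InnerProductSpace
open Pool.Agent.W695.KH (Eu)
open Pool.Agent.J4H58.OC (ordE LDn PI)

namespace Ac

variable {n : ℕ}

/-- the comparison theorem on cubes -/
def Cmpc : Prop := ∀ (n : ℕ) (R : Fin n → Fin n → Prop) (ρ : (Fin n → ℝ) → ℝ) (K L : ℝ),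
    (∀ a, ¬ R a a) → Continuous ρ → (∀ x, 0 < ρ x) →
    (∀ (x : Fin n → ℝ) (σ : Equiv.Perm (Fin n)), ρ (x ∘ σ) = ρ x) → 0 < K → 0 < L →
    PD (cu n L) ρ K → PD (cu n L ∩ ordc R) ρ K

theorem lim_ineq {a b c d k : ℕ → ℝ} {A B C D K : ℝ} (ha : Tendsto a atTop (𝓝 A))
    (hb : Tendsto b atTop (𝓝 B)) (hc : Tendsto c atTop (𝓝 C)) (hd : Tendsto d atTop (𝓝 D))
    (hk : Tendsto k atTop (𝓝 K)) (h : ∀ j, a j * b j - c j ^ 2 ≤ a j * (k j * d j)) :
    A * B - C ^ 2 ≤ A * (K * D) :=
  le_of_tendsto_of_tendsto' ((ha.mul hb).sub (hc.pow 2)) (ha.mul (hk.mul hd)) h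

theorem int_fl' (G : Eu (Fin n) → ℝ) : ∫ x : Fin n → ℝ, G (WithLp.toLp 2 x) = ∫ x, G x :=
  (PiLp.volume_preserving_toLp (Fin n)).integral_comp
    (MeasurableEquiv.toLp 2 (Fin n → ℝ)).measurableEmbedding G

theorem intble_fl' {G : Eu (Fin n) → ℝ} (h : Integrable G) :
    Integrable fun x : Fin n → ℝ => G (WithLp.toLp 2 x) :=
  (PiLp.volume_preserving_toLp (Fin n)).integrable_comp_of_integrable h

theorem ordc_meas (R : Fin n → Fin n → Prop) : MeasurableSet (ordc R) := by
  have h : ordc R = ⋂ i, ⋂ j, ⋂ (_ : R i j), {x : Fin n → ℝ | x i ≤ x j} := by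
    ext x; simp only [ordc, mem_ofPred_eq, mem_iInter]
  rw [h]
  exact (isClosed_iInter fun i =>
      isClosed_iInter fun j => isClosed_iInter fun _ =>
        isClosed_le (by fun_prop) (by fun_prop)).measurableSet

/-- one cube -/
theorem stepL (hA1 : S_A1) (hA2 : S_A2) (hC : Cmpc) {r : Eu (Fin n) → ℝ} (hc : Continuous r)
    (hp : ∀ x, 0 < r x) (hi : Integrable r) (h1 : ∫ x, r x = 1)
    (hs : ∀ (σ : Equiv.Perm (Fin n)) (x : Eu (Fin n)),
      r (WithLp.toLp 2 fun i => x (σ i)) = r x)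
    (hA : ∃ A b : ℝ, 0 < b ∧ ∀ x, r x ≤ A * Real.exp (-b * ∑ i, |x i|)) {K : ℝ} (hK : 0 < K)
    (hPI : PI (volume.withDensity fun x => ENNReal.ofReal (r x)) K) {R : Fin n → Fin n → Prop}
    (hirr : ∀ a, ¬ R a a) {L : ℝ} (hL : 0 < L) :
    ∃ g : (Fin n → ℝ) → ℝ, Continuous g ∧ (∀ x, fl r x ≤ g x) ∧ ∫ x in cu n L, g x = 1 ∧
      PD (cu n L ∩ ordc R) g K := by
  obtain ⟨A, b, hb, hAb⟩ := hA
  have hcf : Continuous (fl r) := hc.comp (PiLp.continuous_toLp 2 _)
  have hsf : ∀ (x : Fin n → ℝ) (σ : Equiv.Perm (Fin n)), fl r (x ∘ σ) = fl r x :=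
    fun x σ => hs σ (WithLp.toLp 2 x)
  obtain ⟨g, hg1, hg2, hg3, hg4, hg5⟩ := hA2 n (fl r) A b L hcf (fun x => hp _) hb
    (fun x => hAb _) hL hsf
  have e1 : ∫ x in cu n L, g x = 1 := by
    have h := hg5 (fun _ => 1) continuous_const
    simp only [mul_one] at h
    rw [← h, ← h1]
    exact int_fl' r
  refine ⟨g, hg1, hg4, e1, ?_⟩
  refine hC n R g K L hirr hg1 hg2 hg3 hK hL ?_
  intro f hf
  have hprob : IsProbabilityMeasure (volume.withDensity fun x => ENNReal.ofReal (r x)) := by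
    refine ⟨?_⟩
    rw [withDensity_apply _ MeasurableSet.univ, setLIntegral_univ,
      ← ofReal_integral_eq_lintegral_ofReal hi (Eventually.of_forall fun x => (hp x).le), h1]
    simp
  have e2 : ∀ G : (Fin n → ℝ) → ℝ, Continuous G →
      ∫ x : Eu (Fin n), G (fun i => tw L (x i))
        ∂(volume.withDensity fun x => ENNReal.ofReal (r x)) = ∫ x in cu n L, g x * G x := by
    intro G hG
    rw [← hg5 G hG, integral_withDensity_eq_integral_toReal_smul hc.measurable.ennreal_ofReal
      (Eventually.of_forall fun x => ENNReal.ofReal_lt_top)]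
    rw [← int_fl' fun x : Eu (Fin n) => (ENNReal.ofReal (r x)).toReal • G fun i => tw L (x i)]
    apply integral_congr_ae
    refine Eventually.of_forall fun x => ?_
    show (ENNReal.ofReal (r (WithLp.toLp 2 x))).toReal • G (fun i => tw L (x i)) = _
    rw [ENNReal.toReal_ofReal (hp _).le, smul_eq_mul]
    rfl
  have h2 := hA1 n _ hprob K L hK hL hPI f hf
  have hgr : Continuous (gr f) := by
    unfold gr pd
    exact continuous_finsetSum _ fun i _ =>
      (((hf.continuous_fderiv one_ne_zero).clm_apply continuous_const).pow 2)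
  rw [e2 (fun x => f x ^ 2) (hf.continuous.pow 2), e2 f hf.continuous, e2 (gr f) hgr] at h2
  rw [e1, one_mul, one_mul]
  exact h2

theorem closeL {r : (Fin n → ℝ) → ℝ} (hr0 : ∀ x, 0 ≤ r x) (hi : Integrable r)
    (h1 : ∫ x, r x = 1) {g : (Fin n → ℝ) → ℝ} (hg : Continuous g) (hrg : ∀ x, r x ≤ g x) {L : ℝ}
    (hgL : ∫ x in cu n L, g x = 1) {R : Fin n → Fin n → Prop} {F : (Fin n → ℝ) → ℝ}
    (hF : Continuous F) {M : ℝ} (hM : ∀ x, |F x| ≤ M) :
    |(∫ x in cu n L ∩ ordc R, g x * F x) - ∫ x in ordc R, r x * F x| ≤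
      M * (2 * (1 - ∫ x in cu n L, r x)) := by
  have hM0 : 0 ≤ M := (abs_nonneg _).trans (hM 0)
  have hmc : MeasurableSet (cu n L) := measurableSet_Icc
  have hmo := ordc_meas R
  have hgi : IntegrableOn g (cu n L) := hg.continuousOn.integrableOn_compact isCompact_Icc
  have hgFi : IntegrableOn (fun x => g x * F x) (cu n L) :=
    (hg.mul hF).continuousOn.integrableOn_compact isCompact_Icc
  have hrF : Integrable fun x => r x * F x := by
    refine hi.mul_bdd (c := M) hF.aestronglyMeasurable (Eventually.of_forall fun x => ?_)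
    rw [Real.norm_eq_abs]
    exact hM x
  rw [← integral_indicator (hmc.inter hmo), ← integral_indicator hmo,
    ← integral_sub ((hgFi.mono_set inter_subset_left).integrable_indicator (hmc.inter hmo))
      (hrF.indicator hmo)]
  have hb : Integrable fun x => M * ((cu n L).indicator g x - (cu n L).indicator r x +
      (cu n L)ᶜ.indicator r x) :=
    (((hgi.integrable_indicator hmc).sub (hi.indicator hmc)).add
      (hi.indicator hmc.compl)).const_mul M
  have h3 := norm_integral_le_of_norm_le hb (f := fun x =>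
    (cu n L ∩ ordc R).indicator (fun x => g x * F x) x - (ordc R).indicator (fun x => r x * F x) x)
    (Eventually.of_forall fun x => by
      rw [Real.norm_eq_abs]
      have hg0 : 0 ≤ g x - r x := sub_nonneg.2 (hrg x)
      by_cases hx : x ∈ cu n L
      · rw [indicator_of_mem hx, indicator_of_mem hx,
          indicator_of_notMem (fun h : x ∈ (cu n L)ᶜ => h hx), add_zero]
        by_cases hy : x ∈ ordc R
        · rw [indicator_of_mem (show x ∈ cu n L ∩ ordc R from ⟨hx, hy⟩), indicator_of_mem hy, ← sub_mul,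
            abs_mul, abs_of_nonneg hg0, mul_comm]
          exact mul_le_mul_of_nonneg_right (hM x) hg0
        · rw [indicator_of_notMem (fun h : x ∈ cu n L ∩ ordc R => hy h.2),
            indicator_of_notMem hy, sub_self, abs_zero]
          positivity
      · rw [indicator_of_notMem hx, indicator_of_notMem hx,
          indicator_of_mem (show x ∈ (cu n L)ᶜ from hx), sub_self,
          zero_add, indicator_of_notMem (fun h : x ∈ cu n L ∩ ordc R => hx h.1), zero_sub, abs_neg]
        by_cases hy : x ∈ ordc R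
        · rw [indicator_of_mem hy, abs_mul, abs_of_nonneg (hr0 x), mul_comm]
          exact mul_le_mul_of_nonneg_right (hM x) (hr0 x)
        · rw [indicator_of_notMem hy, abs_zero]
          exact mul_nonneg hM0 (hr0 x))
  rw [Real.norm_eq_abs] at h3
  refine h3.trans (le_of_eq ?_)
  have i1 : Integrable fun x => (cu n L).indicator g x - (cu n L).indicator r x :=
    (hgi.integrable_indicator hmc).sub (hi.indicator hmc)
  have i2 : Integrable fun x => (cu n L)ᶜ.indicator r x := hi.indicator hmc.compl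
  rw [integral_const_mul, integral_add i1 i2,
    integral_sub (hgi.integrable_indicator hmc) (hi.indicator hmc),
    integral_indicator hmc, integral_indicator hmc, integral_indicator hmc.compl, hgL]
  have h4 := integral_add_compl hmc hi
  rw [h1] at h4
  have h5 : ∫ x in (cu n L)ᶜ, r x = 1 - ∫ x in cu n L, r x := by linarith
  rw [h5]
  ring

/-- the cubes exhaust the space -/
theorem cu_lim {r : (Fin n → ℝ) → ℝ} (hi : Integrable r) :
    Tendsto (fun k : ℕ => ∫ x in cu n ((k : ℝ) + 1), r x) atTop (𝓝 (∫ x, r x)) := by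
  have h1 := tendsto_setIntegral_of_monotone (μ := volume) (f := r)
    (s := fun k : ℕ => cu n ((k : ℝ) + 1)) (fun k => measurableSet_Icc) (by
      intro j k hjk x hx
      have : (j : ℝ) ≤ k := by exact_mod_cast hjk
      exact ⟨fun i => by have := hx.1 i; simp only at this ⊢; linarith,
        fun i => by have := hx.2 i; simp only at this ⊢; linarith⟩) hi.integrableOn
  have h2 : (⋃ k : ℕ, cu n ((k : ℝ) + 1)) = univ := by
    refine eq_univ_of_forall fun x => ?_
    obtain ⟨k, hk⟩ := exists_nat_ge ‖x‖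
    refine mem_iUnion.2 ⟨k, ?_⟩
    have h3 : ∀ i, |x i| ≤ k := fun i => by
      have := norm_le_pi_norm x i
      rw [Real.norm_eq_abs] at this
      linarith
    exact ⟨fun i => by have := (abs_le.1 (h3 i)).1; simp only; linarith,
      fun i => by have := (abs_le.1 (h3 i)).2; simp only; linarith⟩
  rw [h2, Measure.restrict_univ] at h1
  exact h1

theorem bdd_of {f : (Fin n → ℝ) → ℝ} (hf : Continuous f) (hcs : HasCompactSupport f) :
    ∃ M, ∀ x, |f x| ≤ M := by
  obtain ⟨M, hM⟩ := hf.bounded_above_of_compact_support hcs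
  exact ⟨M, fun x => by rw [← Real.norm_eq_abs]; exact hM x⟩

theorem gr_cs {f : (Fin n → ℝ) → ℝ} (hcs : HasCompactSupport f) : HasCompactSupport (gr f) := by
  have h := (hcs.fderiv (𝕜 := ℝ)).comp_left
    (g := fun T : (Fin n → ℝ) →L[ℝ] ℝ => ∑ i, T (Pi.single i 1) ^ 2) (by simp)
  exact h

theorem gr_cont {f : (Fin n → ℝ) → ℝ} (hf : ContDiff ℝ 1 f) : Continuous (gr f) := by
  unfold gr pd
  exact continuous_finsetSum _ fun i _ =>
    (((hf.continuous_fderiv one_ne_zero).clm_apply continuous_const).pow 2)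

/-- limit in the cube -/
theorem stepAll (hA1 : S_A1) (hA2 : S_A2) (hC : Cmpc) {r : Eu (Fin n) → ℝ} (hc : Continuous r)
    (hp : ∀ x, 0 < r x) (hi : Integrable r) (h1 : ∫ x, r x = 1)
    (hs : ∀ (σ : Equiv.Perm (Fin n)) (x : Eu (Fin n)),
      r (WithLp.toLp 2 fun i => x (σ i)) = r x)
    (hA : ∃ A b : ℝ, 0 < b ∧ ∀ x, r x ≤ A * Real.exp (-b * ∑ i, |x i|)) {K : ℝ} (hK : 0 < K)
    (hPI : PI (volume.withDensity fun x => ENNReal.ofReal (r x)) K) {R : Fin n → Fin n → Prop}
    (hirr : ∀ a, ¬ R a a) {f : (Fin n → ℝ) → ℝ} (hf : ContDiff ℝ 1 f)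
    (hcs : HasCompactSupport f) :
    (∫ x in ordc R, fl r x) * (∫ x in ordc R, fl r x * f x ^ 2) -
      (∫ x in ordc R, fl r x * f x) ^ 2 ≤
    (∫ x in ordc R, fl r x) * (K * ∫ x in ordc R, fl r x * gr f x) := by
  have hL : ∀ k : ℕ, (0 : ℝ) < (k : ℝ) + 1 := fun k => by positivity
  choose g hg1 hg2 hg3 hg4 using fun k : ℕ =>
    stepL hA1 hA2 hC hc hp hi h1 hs hA hK hPI hirr (hL k)
  have hi' : Integrable (fl r) := intble_fl' hi
  have h1' : ∫ x, fl r x = 1 := by
    rw [← h1]
    exact int_fl' r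
  have key : ∀ F : (Fin n → ℝ) → ℝ, Continuous F → (∃ M, ∀ x, |F x| ≤ M) →
      Tendsto (fun k : ℕ => ∫ x in cu n ((k : ℝ) + 1) ∩ ordc R, g k x * F x) atTop
        (𝓝 (∫ x in ordc R, fl r x * F x)) := by
    rintro F hF ⟨M, hM⟩
    rw [tendsto_iff_norm_sub_tendsto_zero]
    have h3 : Tendsto (fun k : ℕ => M * (2 * (1 - ∫ x in cu n ((k : ℝ) + 1), fl r x))) atTop
        (𝓝 0) := by
      have h4 := ((((cu_lim hi').const_sub 1).const_mul 2).const_mul M)
      rw [h1'] at h4
      simpa using h4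
    refine squeeze_zero (fun k => norm_nonneg _) (fun k => ?_) h3
    rw [Real.norm_eq_abs]
    exact closeL (fun x => (hp _).le) hi' h1' (hg1 k) (hg2 k) (hg3 k) hF hM
  have k0 := key (fun _ => 1) continuous_const ⟨1, fun x => by simp⟩
  simp only [mul_one] at k0
  have k1 := key f hf.continuous (bdd_of hf.continuous hcs)
  have k2 := key (fun x => f x ^ 2) (hf.continuous.pow 2) (by
    obtain ⟨M, hM⟩ := bdd_of hf.continuous hcs
    refine ⟨M ^ 2, fun x => ?_⟩
    rw [abs_pow]
    exact pow_le_pow_left₀ (abs_nonneg _) (hM x) 2)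
  have k3 := key (gr f) (gr_cont hf) (bdd_of (gr_cont hf) (gr_cs hcs))
  exact lim_ineq k0 k2 k1 k3 tendsto_const_nhds fun k => hg4 k f hf

theorem a4 (hA1 : S_A1) (hA2 : S_A2) (hA3 : S_A3) (hC : Cmpc) : S_A4 := by
  intro n ρ R K hn hρ hK hPI h1 h2
  obtain ⟨c, hc, Hc, -⟩ := Pool.Agent.J4H48.OC.t_SRT n R h1 h2
  have hpos : 0 < ∫ x in ordE R, ρ x := by
    rw [Hc ρ hρ.ld.int hρ.perm, hρ.ld.one, mul_one]
    exact hc
  have hL := ld_rR (R := R) hρ.ld.nonneg hρ.ld.meas hρ.ld.logc hρ.ld.int hpos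
  refine ⟨hL, pi_rR hL hpos hK ?_⟩
  intro f hf hcs
  set R' : Fin n → Fin n → Prop := fun a b => R a b ∧ a ≠ b with hR'
  have hRR : ordc R = ordc R' := by
    ext x
    constructor
    · intro h i j hij
      exact h i j hij.1
    · intro h i j hij
      rcases eq_or_ne i j with rfl | hne
      · exact le_rfl
      · exact h i j ⟨hij, hne⟩
  rw [hRR]
  have hε : ∀ k : ℕ, (0 : ℝ) < 1 / ((k : ℝ) + 1) := fun k => by positivity
  choose r r1 r2 r3 r4 r5 r6 r7 r8 using fun k : ℕ =>
    hA3 n ρ K (1 / ((k : ℝ) + 1)) hn hρ hK hPI (hε k)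
  have hi' : Integrable (fl ρ) := intble_fl' hρ.ld.int
  have key : ∀ F : (Fin n → ℝ) → ℝ, Continuous F → (∃ M, ∀ x, |F x| ≤ M) →
      Tendsto (fun k : ℕ => ∫ x in ordc R', fl (r k) x * F x) atTop
        (𝓝 (∫ x in ordc R', fl ρ x * F x)) := by
    rintro F hF ⟨M, hM⟩
    have hM0 : 0 ≤ M := (abs_nonneg _).trans (hM 0)
    rw [tendsto_iff_norm_sub_tendsto_zero]
    have h3 : Tendsto (fun k : ℕ => M * (1 / ((k : ℝ) + 1))) atTop (𝓝 0) := by
      have h4 := (tendsto_one_div_add_atTop_nhds_zero_nat (𝕜 := ℝ)).const_mul M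
      simpa using h4
    refine squeeze_zero (fun k => norm_nonneg _) (fun k => ?_) h3
    have hik : Integrable (fl (r k)) := intble_fl' (r3 k)
    have j1 : Integrable fun x => fl (r k) x * F x :=
      hik.mul_bdd (c := M) hF.aestronglyMeasurable
        (Eventually.of_forall fun x => by rw [Real.norm_eq_abs]; exact hM x)
    have j2 : Integrable fun x => fl ρ x * F x :=
      hi'.mul_bdd (c := M) hF.aestronglyMeasurable
        (Eventually.of_forall fun x => by rw [Real.norm_eq_abs]; exact hM x)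
    rw [← integral_sub j1.integrableOn j2.integrableOn]
    have hb : Integrable fun x => M * |fl (r k) x - fl ρ x| := ((hik.sub hi').abs).const_mul M
    have h5 : ‖∫ x in ordc R', (fl (r k) x * F x - fl ρ x * F x)‖ ≤
        ∫ x in ordc R', M * |fl (r k) x - fl ρ x| := by
      refine norm_integral_le_of_norm_le hb.integrableOn (Eventually.of_forall fun x => ?_)
      rw [Real.norm_eq_abs, ← sub_mul, abs_mul, mul_comm]
      exact mul_le_mul_of_nonneg_right (hM x) (abs_nonneg _)
    refine h5.trans ?_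
    have h6 : ∫ x in ordc R', M * |fl (r k) x - fl ρ x| ≤ ∫ x, M * |fl (r k) x - fl ρ x| :=
      setIntegral_le_integral hb (Eventually.of_forall fun x => by positivity)
    refine h6.trans ?_
    rw [integral_const_mul]
    refine mul_le_mul_of_nonneg_left ?_ hM0
    refine le_trans (le_of_eq ?_) (r8 k)
    exact int_fl' fun x => |r k x - ρ x|
  have k0 := key (fun _ => 1) continuous_const ⟨1, fun x => by simp⟩
  simp only [mul_one] at k0
  have k1 := key f hf.continuous (bdd_of hf.continuous hcs)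
  have k2 := key (fun x => f x ^ 2) (hf.continuous.pow 2) (by
    obtain ⟨M, hM⟩ := bdd_of hf.continuous hcs
    refine ⟨M ^ 2, fun x => ?_⟩
    rw [abs_pow]
    exact pow_le_pow_left₀ (abs_nonneg _) (hM x) 2)
  have k3 := key (gr f) (gr_cont hf) (bdd_of (gr_cont hf) (gr_cs hcs))
  have hk : Tendsto (fun k : ℕ => K + 1 / ((k : ℝ) + 1)) atTop (𝓝 K) := by
    have h4 := (tendsto_one_div_add_atTop_nhds_zero_nat (𝕜 := ℝ)).const_add K
    simpa using h4
  exact lim_ineq k0 k2 k1 k3 hk fun k =>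
    stepAll hA1 hA2 hC (r1 k) (r2 k) (r3 k) (r4 k) (r5 k) (r6 k) (by have := hε k; linarith)
      (r7 k) (fun a h => h.2 rfl) hf hcs

end Ac

end Pool.Agent.J4H58.XC
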