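import Pool.Agent.J4H58.XC.Fin
import Pool.Agent.J4H13.XC.X2
import Pool.Agent.J4H13.XC.X3
import Pool.Agent.J4H13.XC.X7
import Pool.Agent.J4H44.XC.X1
import Pool.Agent.J4H44.XC.X5
import Pool.Agent.J4H44.XC.X6
import Pool.Agent.J4H67.XC.X4
import Pool.Agent.J4H67.XC.X7a
import Pool.Agent.J4H67.XC.X7b
import Pool.Agent.J4H60.XC.X8
import Pool.Agent.J4H74.XC.X9a
import Pool.Agent.J4H74.XC.Mom
import Pool.Agent.J4H46.XC.X9
import Pool.Agent.J4H28.XC.X10
import Pool.Agent.J4H93.XC.X11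
import Pool.Agent.J4H98.XC.X12
import Pool.Agent.J4H17.XC.X13
import Pool.Agent.J4H21.XC.X14
import Pool.Agent.J4H21.XC.Bod

/-! Assembly, part 5 (project XC). -/

set_option autoImplicit false

namespace Pool.Agent.J4H58.XC

open MeasureTheory Set Filter Topology ProbabilityTheory
open scoped ENNReal InnerProductSpace
open Pool.Agent.W695.KH (Eu)
open Pool.Agent.J4H58.OC (ordE LDn PI)

theorem cmp : S_CMP :=
  Pool.Agent.J4H44.XC.Cmp.t_X6 Pool.Agent.J4H44.XC.t_X1 Pool.Agent.J4H13.XC.t_X2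
    Pool.Agent.J4H13.XC.t_X3 Pool.Agent.J4H67.XC.t_X4 Pool.Agent.J4H44.XC.Tag.t_X5

theorem stk : S_X7 := Pool.Agent.J4H13.XC.t_X7 Pool.Agent.J4H67.XC.t_X7a Pool.Agent.J4H67.XC.t_X7b

theorem t_cq : S_CQ := cq cmp stk Pool.Agent.J4H60.XC.t_X8 Pool.Agent.J4H74.XC.t_X9a
  Pool.Agent.J4H46.XC.t_X9 Pool.Agent.J4H28.XC.t_X10

/-- the comparison theorem on cubes -/
theorem comparison : ∀ (n : ℕ) (R : Fin n → Fin n → Prop) (ρ : (Fin n → ℝ) → ℝ) (K L : ℝ),
    (∀ a, ¬ R a a) → Continuous ρ → (∀ x, 0 < ρ x) →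
    (∀ (x : Fin n → ℝ) (σ : Equiv.Perm (Fin n)), ρ (x ∘ σ) = ρ x) → 0 < K → 0 < L →
    PD (cu n L) ρ K → PD (cu n L ∩ ordc R) ρ K := Pool.Agent.J4H93.XC.t_X11 t_cq

/-- all parts for 1-symmetric measures -/
theorem all : ∃ C : ℝ, 0 < C ∧
    (∀ (n : ℕ) (ρ : Eu (Fin n) → ℝ) (R : Fin n → Fin n → Prop), 1 ≤ n → Sd ρ →
      IsProbabilityMeasure (volume.withDensity fun x => ENNReal.ofReal (ρ x)) →
      (∀ a b, R a b → R b a → a = b) → (∀ a b c, R a b → R b c → R a c) →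
      IsProbabilityMeasure (((volume.withDensity fun x => ENNReal.ofReal (ρ x)) (ordE R))⁻¹ •
        (volume.withDensity fun x => ENNReal.ofReal (ρ x)).restrict (ordE R)) ∧
      ∀ s : ℝ, 0 < s → (∀ θ : Eu (Fin n), ‖θ‖ = 1 → variance (fun x => ⟪x, θ⟫_ℝ)
        (((volume.withDensity fun x => ENNReal.ofReal (ρ x)) (ordE R))⁻¹ •
        (volume.withDensity fun x => ENNReal.ofReal (ρ x)).restrict (ordE R)) ≤ s) →
      ∀ S : Set (Eu (Fin n)), MeasurableSet S →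
        ENNReal.ofReal (1 / (8 * Real.sqrt C) / Real.sqrt s) *
          min ((((volume.withDensity fun x => ENNReal.ofReal (ρ x)) (ordE R))⁻¹ •
            (volume.withDensity fun x => ENNReal.ofReal (ρ x)).restrict (ordE R)) S)
            ((((volume.withDensity fun x => ENNReal.ofReal (ρ x)) (ordE R))⁻¹ •
            (volume.withDensity fun x => ENNReal.ofReal (ρ x)).restrict (ordE R)) Sᶜ) ≤
          bd (((volume.withDensity fun x => ENNReal.ofReal (ρ x)) (ordE R))⁻¹ •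
            (volume.withDensity fun x => ENNReal.ofReal (ρ x)).restrict (ordE R)) S) ∧
    (∀ (n : ℕ) (K : Set (Eu (Fin n))) (R : Fin n → Fin n → Prop), 1 ≤ n → IsCompact K →
      Convex ℝ K → (interior K).Nonempty →
      (∀ (σ : Equiv.Perm (Fin n)) (x y : Eu (Fin n)), (∀ i, |y i| = |x (σ i)|) → x ∈ K → y ∈ K) →
      (∀ a b, R a b → R b a → a = b) → (∀ a b c, R a b → R b c → R a c) →
      (IsCompact (K ∩ ordE R) ∧ Convex ℝ (K ∩ ordE R) ∧ (interior (K ∩ ordE R)).Nonempty) ∧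
      IsProbabilityMeasure ((volume (K ∩ ordE R))⁻¹ • volume.restrict (K ∩ ordE R)) ∧
      ∀ s : ℝ, 0 < s → (∀ θ : Eu (Fin n), ‖θ‖ = 1 → variance (fun x => ⟪x, θ⟫_ℝ)
        ((volume (K ∩ ordE R))⁻¹ • volume.restrict (K ∩ ordE R)) ≤ s) →
      ∀ S : Set (Eu (Fin n)), MeasurableSet S →
        ENNReal.ofReal (1 / (8 * Real.sqrt C) / Real.sqrt s) *
          min (((volume (K ∩ ordE R))⁻¹ • volume.restrict (K ∩ ordE R)) S)
            (((volume (K ∩ ordE R))⁻¹ • volume.restrict (K ∩ ordE R)) Sᶜ) ≤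
          bd ((volume (K ∩ ordE R))⁻¹ • volume.restrict (K ∩ ordE R)) S) := by
  obtain ⟨C, hC, H⟩ := main Pool.Agent.J4H93.XC.t_X11 t_cq Pool.Agent.J4H98.XC.t_X12
    Pool.Agent.J4H17.XC.t_X13 Pool.Agent.J4H21.XC.t_X14 t_X17
  refine ⟨C, hC, ?_, ?_⟩
  · intro n ρ R hn hρ hprob h1 h2
    have hlt : ∫⁻ x, ENNReal.ofReal (ρ x) = 1 := by
      have := hprob.measure_univ
      rwa [withDensity_apply _ MeasurableSet.univ, setLIntegral_univ] at this
    have hint : Integrable ρ := by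
      refine ⟨hρ.meas.aestronglyMeasurable, ?_⟩
      rw [hasFiniteIntegral_iff_ofReal (Eventually.of_forall hρ.nonneg), hlt]
      exact ENNReal.one_lt_top
    have hone : ∫ x, ρ x = 1 := by
      rw [integral_eq_lintegral_of_nonneg_ae (Eventually.of_forall hρ.nonneg)
        hρ.meas.aestronglyMeasurable, hlt]
      rfl
    obtain ⟨hpos, hp, hk⟩ := kls Pool.Agent.J4H74.XC.Mom.t_MOM hC H hn hρ hint hone h1 h2
    rw [given_eq hρ hint hpos]
    exact ⟨hp, fun s hs hvar => (hk s hs hvar).2⟩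
  · intro n K R hn hK hKc hKi hinv h1 h2
    obtain ⟨b1, b2, b3, ρ, hρ, hint, hone, -, he⟩ :=
      Pool.Agent.J4H21.XC.t_BOD n K R hn hK hKc hKi hinv h1 h2
    obtain ⟨hpos, hp, hk⟩ := kls Pool.Agent.J4H74.XC.Mom.t_MOM hC H hn hρ hint hone h1 h2
    have he' : (volume (K ∩ ordE R))⁻¹ • volume.restrict (K ∩ ordE R) = muR ρ R := he
    rw [he']
    exact ⟨⟨b1, b2, b3⟩, hp, fun s hs hvar => (hk s hs hvar).2⟩

end Pool.Agent.J4H58.XC
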