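import Pool.Agent.J4H58.XC.Stm3

/-! Assembly: the comparison theorem on cubes (project XC). -/

set_option autoImplicit false

namespace Pool.Agent.J4H58.XC

open MeasureTheory Set Filter Topology

theorem wt_of {n : ℕ} {ρ : (Fin n → ℝ) → ℝ} (hpos : ∀ x, 0 < ρ x)
    (hsym : ∀ (x : Fin n → ℝ) (σ : Equiv.Perm (Fin n)), ρ (x ∘ σ) = ρ x) {N : ℕ} (hN : 0 < N) :
    Wt n (rw ρ N) (sw ρ N) := by
  have hN' : (0 : ℝ) < N := by exact_mod_cast hN
  have hnd : ∀ (x : Fin n → ℕ) (σ : Equiv.Perm (Fin n)), nd N (x ∘ σ) = nd N x ∘ σ := by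
    intro x σ
    rfl
  refine ⟨?_, ?_, ?_, ?_, ?_⟩
  · intro x
    unfold rw
    split_ifs
    · exact (hpos _).le
    · exact le_rfl
  · intro x hx
    unfold rw
    rw [if_neg (fun h => hx h.1)]
  · intro x σ
    unfold rw
    have h1 : (Function.Injective (x ∘ σ) ∧ ∀ i, (x ∘ σ) i < N) ↔
        (Function.Injective x ∧ ∀ i, x i < N) := by
      constructor
      · rintro ⟨h1, h2⟩
        refine ⟨?_, fun i => ?_⟩
        · have := h1.comp (σ⁻¹).injective
          rwa [show (x ∘ σ) ∘ (σ⁻¹ : Equiv.Perm (Fin n)) = x from by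
            funext i
            simp] at this
        · have := h2 (σ⁻¹ i)
          simpa using this
      · rintro ⟨h1, h2⟩
        exact ⟨h1.comp σ.injective, fun i => h2 (σ i)⟩
    by_cases h : Function.Injective x ∧ ∀ i, x i < N
    · rw [if_pos h, if_pos (h1.2 h), hnd, hsym]
    · rw [if_neg h, if_neg (fun h' => h (h1.1 h'))]
  · intro x i
    exact mul_pos (by positivity) (hpos _)
  · intro x σ i
    unfold sw
    rw [hnd, hsym]

/-- the comparison theorem on the unit cube -/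
theorem cq (hC : S_CMP) (h7 : S_X7) (h8 : S_X8) (h9a : S_X9a) (h9 : S_X9) (h10 : S_X10) :
    S_CQ := by
  intro n R ρ K hirr hcont hpos hsym hK hPD
  refine h10 n R ρ K hirr hcont hpos hK fun K' hK' => ?_
  have h1 := h9 h9a n ρ K ((K + K') / 2) hcont hpos hK (by linarith) hPD
  filter_upwards [h1, eventually_gt_atTop 0] with N hN1 hN0
  exact h8 hC h7 n N R _ _ ((K + K') / 2) K' (wt_of hpos hsym hN0) (by linarith) (by linarith) hN1

end Pool.Agent.J4H58.XC
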