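import Pool.Agent.J4H58.XC.Stm3
import Pool.Agent.J4H58.OC.Stm4

/-!
# Order constraints: transfer to Euclidean space, halfspace form (project XC)
-/

set_option autoImplicit false

namespace Pool.Agent.J4H58.XC

open MeasureTheory Set Filter Topology ProbabilityTheory
open scoped ENNReal InnerProductSpace
open Pool.Agent.W695.KH (Eu)
open Pool.Agent.J4H58.OC (ordE LDn PI)

open Classical in
/-- the density `ρ`, conditioned on the cone of `R` -/
noncomputable def rR {n : ℕ} (ρ : Eu (Fin n) → ℝ) (R : Fin n → Fin n → Prop) (x : Eu (Fin n)) : ℝ :=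
  (if x ∈ ordE R then ρ x else 0) / ∫ y in ordE R, ρ y

/-- X17 (TRN): to Euclidean space and to all `C¹` functions (`J4H21.OC.t_EXT`; measurable equivalence
`Fin n → ℝ ≃ EuclideanSpace`, `‖fderiv ℝ f x‖² = ∑ (∂_i f)²`, as in `J4H58.OC.Asm`, `J4H58.OC.Tr`) -/
def S_X17 : Prop := ∀ (n : ℕ) (ρ : Eu (Fin n) → ℝ) (R : Fin n → Fin n → Prop) (K : ℝ), Sd ρ →
  Integrable ρ → 0 < ∫ x in ordE R, ρ x → 0 < K →
  (∀ f : (Fin n → ℝ) → ℝ, ContDiff ℝ 1 f → HasCompactSupport f →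
    (∫ x in ordc R, fl ρ x) * (∫ x in ordc R, fl ρ x * f x ^ 2) -
      (∫ x in ordc R, fl ρ x * f x) ^ 2 ≤
    (∫ x in ordc R, fl ρ x) * (K * ∫ x in ordc R, fl ρ x * gr f x)) →
  LDn (rR ρ R) ∧ PI (volume.withDensity fun x => ENNReal.ofReal (rR ρ R x)) K

/-- uniform probability measure -/
noncomputable def un {n : ℕ} (D : Set (Eu (Fin n))) : Measure (Eu (Fin n)) :=
  (volume D)⁻¹ • volume.restrict D

/-- Minkowski boundary measure -/
noncomputable def bd {n : ℕ} (μ : Measure (Eu (Fin n))) (A : Set (Eu (Fin n))) : ℝ≥0∞ :=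
  liminf (fun ε : ℝ => (μ (Metric.thickening ε A) - μ A) / ENNReal.ofReal ε) (𝓝[>] 0)

/-- X19 (HLF): halfspace form for convex bodies (`J4H58.OC.cheeger` with
`J4H57.OC.t_APX` for the density `1_D / |D|`, `Y211.FF.half` for the variance in the direction `a`, as in
`R972.OP.half_form`) -/
def S_X19 : Prop := ∃ c : ℝ, 0 < c ∧ ∀ (n : ℕ) (D : Set (Eu (Fin n))) (k v : ℝ) (a : Eu (Fin n)),
  1 ≤ n → IsCompact D → Convex ℝ D → (interior D).Nonempty → 0 < k → 0 < v → ‖a‖ = 1 →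
  PI (un D) k → v ≤ variance (fun x => ⟪a, x⟫_ℝ) (un D) → ∀ t : ℝ≥0∞,
  (∀ b : ℝ, t * min (un D {x | ⟪a, x⟫_ℝ ≤ b}) (1 - un D {x | ⟪a, x⟫_ℝ ≤ b}) ≤
    bd (un D) {x | ⟪a, x⟫_ℝ ≤ b}) →
  ∀ S : Set (Eu (Fin n)), MeasurableSet S →
    ENNReal.ofReal (c * Real.sqrt (v / k)) * t * min (un D S) (1 - un D S) ≤ bd (un D) S

/-- X20 (CHF): Cheeger's inequality for log-concave densities, from `J4H58.OC.cheeger` -/
def S_X20 : Prop := ∀ (n : ℕ) (ρ : Eu (Fin n) → ℝ) (k : ℝ), 1 ≤ n → LDn ρ → 0 < k →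
  PI (volume.withDensity fun x => ENNReal.ofReal (ρ x)) k → ∀ S : Set (Eu (Fin n)),
  MeasurableSet S → ENNReal.ofReal (1 / (8 * Real.sqrt k)) *
    min ((volume.withDensity fun x => ENNReal.ofReal (ρ x)) S)
      (1 - (volume.withDensity fun x => ENNReal.ofReal (ρ x)) S) ≤
    bd (volume.withDensity fun x => ENNReal.ofReal (ρ x)) S

end Pool.Agent.J4H58.XC
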