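import Pool.Agent.J4H58.XC.Asm
import Pool.Agent.J4H58.XC.Stm4

/-! Assembly, part 2: 1-symmetric densities conditioned on an order cone (project XC). -/

set_option autoImplicit false

namespace Pool.Agent.J4H58.XC

open MeasureTheory Set Filter Topology ProbabilityTheory
open scoped ENNReal InnerProductSpace
open Pool.Agent.W695.KH (Eu)
open Pool.Agent.J4H58.OC (ordE LDn PI)

variable {n : ℕ}

theorem int_fl (G : Eu (Fin n) → ℝ) : ∫ x : Fin n → ℝ, G (WithLp.toLp 2 x) = ∫ x, G x :=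
  (PiLp.volume_preserving_toLp (Fin n)).integral_comp
    (MeasurableEquiv.toLp 2 (Fin n → ℝ)).measurableEmbedding G

theorem intble_fl {G : Eu (Fin n) → ℝ} (h : Integrable G) :
    Integrable fun x : Fin n → ℝ => G (WithLp.toLp 2 x) :=
  (PiLp.volume_preserving_toLp (Fin n)).integrable_comp_of_integrable h

/-- Poincaré's inequality for conditioned 1-symmetric densities -/
theorem main (h11 : S_CQ → ∀ (n : ℕ) (R : Fin n → Fin n → Prop) (ρ : (Fin n → ℝ) → ℝ) (K L : ℝ),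
    (∀ a, ¬ R a a) → Continuous ρ → (∀ x, 0 < ρ x) →
    (∀ (x : Fin n → ℝ) (σ : Equiv.Perm (Fin n)), ρ (x ∘ σ) = ρ x) → 0 < K → 0 < L →
    PD (cu n L) ρ K → PD (cu n L ∩ ordc R) ρ K) (hq : S_CQ) (h12 : S_X12) (h13 : S_X13)
    (h14 : S_X14) (h17 : S_X17) :
    ∃ C : ℝ, 0 < C ∧ ∀ (n : ℕ) (ρ : Eu (Fin n) → ℝ) (s : ℝ) (R : Fin n → Fin n → Prop), 1 ≤ n →
    Sd ρ → Integrable ρ → ∫ x, ρ x = 1 → (∀ i, Integrable fun x : Eu (Fin n) => x i ^ 2 * ρ x) →
    0 < s → (∀ i, ∫ x : Eu (Fin n), x i ^ 2 * ρ x ≤ s) → (∀ a, ¬ R a a) →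
    0 < ∫ x in ordE R, ρ x →
    LDn (rR ρ R) ∧ PI (volume.withDensity fun x => ENNReal.ofReal (rR ρ R x)) (C * s) := by
  obtain ⟨C, hC, H⟩ := h12
  refine ⟨C, hC, ?_⟩
  intro n ρ s R hn hρ hint hone hint2 hs hmom hirr hpos
  have hex : ∃ x, 0 < ρ x := by
    by_contra hcon
    push Not at hcon
    have h0 : ∀ x, ρ x = 0 := fun x => le_antisymm (hcon x) (hρ.nonneg x)
    simp only [h0, integral_zero] at hone
    exact zero_ne_one hone
  obtain ⟨r, hr1, hr2, hr3, hr4, hr5⟩ := h13 n ρ hn hρ hex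
  refine h17 n ρ R (C * s) hρ hint hpos (by positivity) ?_
  refine h14 n ρ r R C s hn hρ (intble_fl hint) ?_ (fun i => intble_fl (hint2 i)) ?_ hs hC hr2 hr3
    hr4 hr5 ?_
  · rw [← hone]
    exact int_fl ρ
  · intro i
    refine le_trans (le_of_eq ?_) (hmom i)
    exact int_fl fun x => x i ^ 2 * ρ x
  · intro k L s' hL hs' hk
    refine h11 hq n R (fl (r k)) (C * s') L hirr ?_ (fun x => hr3 k _) ?_ (by positivity) hL
      (H n hn (r k) (hr1 k) (hr2 k) (hr3 k) L s' hL hs' hk)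
    · exact (hr2 k).comp (PiLp.continuous_toLp 2 _)
    · intro x σ
      exact (hr1 k).inv σ _ _ fun i => rfl

end Pool.Agent.J4H58.XC
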