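import Pool.Agent.J4H58.XC.Asm
import Pool.Agent.J4H13.XC.X2
import Pool.Agent.J4H13.XC.X3
import Pool.Agent.J4H13.XC.X7
import Pool.Agent.J4H44.XC.X1
import Pool.Agent.J4H44.XC.X5
import Pool.Agent.J4H44.XC.X6
import Pool.Agent.J4H67.XC.X4
import Pool.Agent.J4H67.XC.X7a
import Pool.Agent.J4H67.XC.X7b
import Pool.Agent.J4H60.XC.X8
import Pool.Agent.J4H74.XC.X9a
import Pool.Agent.J4H74.XC.Mom
import Pool.Agent.J4H46.XC.X9
import Pool.Agent.J4H28.XC.X10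
import Pool.Agent.J4H93.XC.X11
import Pool.Agent.J4H58.XC.A4
import Pool.Agent.J4H74.XC.A1
import Pool.Agent.J4H74.XC.A2
import Pool.Agent.J4H30.XC.A3

/-! The comparison theorem for permutation invariant log-concave measures, assembled (project XC). -/

set_option autoImplicit false

namespace Pool.Agent.J4H58.XC.Cm

open Pool.Agent.J4H58.XC

theorem cmp : S_CMP :=
  Pool.Agent.J4H44.XC.Cmp.t_X6 Pool.Agent.J4H44.XC.t_X1 Pool.Agent.J4H13.XC.t_X2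
    Pool.Agent.J4H13.XC.t_X3 Pool.Agent.J4H67.XC.t_X4 Pool.Agent.J4H44.XC.Tag.t_X5

theorem stk : S_X7 := Pool.Agent.J4H13.XC.t_X7 Pool.Agent.J4H67.XC.t_X7a Pool.Agent.J4H67.XC.t_X7b

theorem cq : S_CQ := Pool.Agent.J4H58.XC.cq cmp stk Pool.Agent.J4H60.XC.t_X8
  Pool.Agent.J4H74.XC.t_X9a Pool.Agent.J4H46.XC.t_X9 Pool.Agent.J4H28.XC.t_X10

/-- cubes -/
theorem cubes : Ac.Cmpc := Pool.Agent.J4H93.XC.t_X11 cq

/-- **the comparison theorem** -/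
theorem exch : S_A4 := Ac.a4 Pool.Agent.J4H74.XC.A1.t_A1 Pool.Agent.J4H74.XC.A2.t_A2
  Pool.Agent.J4H30.XC.t_A3 cubes

end Pool.Agent.J4H58.XC.Cm
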