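import Pool.Agent.J4H58.XC.Stm4
import Pool.Agent.J4H58.OC.Asm3
import Pool.Agent.J4H48.OC.Srt
import Pool.Agent.R711.POBE
import Pool.Agent.J4H21.OC.Ext

/-! Transfer to Euclidean space (project XC, job X17). -/

set_option autoImplicit false

namespace Pool.Agent.J4H58.XC

open MeasureTheory Set Filter Topology ProbabilityTheory
open scoped ENNReal InnerProductSpace
open Pool.Agent.W695.KH (Eu)
open Pool.Agent.J4H58.OC (ordE LDn PI)

variable {n : ℕ}

/-- log-concavity, measurability and nonnegativity suffice -/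
theorem ld_rR {ρ : Eu (Fin n) → ℝ} {R : Fin n → Fin n → Prop} (h0 : ∀ x, 0 ≤ ρ x)
    (hm : Measurable ρ)
    (hl : ∀ x y, ∀ t : ℝ, 0 < t → t < 1 → ρ x ^ (1 - t) * ρ y ^ t ≤ ρ ((1 - t) • x + t • y))
    (hint : Integrable ρ) (hpos : 0 < ∫ x in ordE R, ρ x) : LDn (rR ρ R) := by
  have hmE := Pool.Agent.J4H48.OC.ordE_meas R
  have hnn : ∀ x, 0 ≤ rR ρ R x := by
    intro x
    unfold rR
    split_ifs
    · exact div_nonneg (h0 x) hpos.le
    · simp
  have e : rR ρ R = fun x => (ordE R).indicator ρ x / ∫ y in ordE R, ρ y := by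
    funext x
    unfold rR
    by_cases h : x ∈ ordE R
    · rw [if_pos h, indicator_of_mem h]
    · rw [if_neg h, indicator_of_notMem h]
  refine ⟨hnn, ?_, ?_, ?_, ?_⟩
  · rw [e]
    exact (hm.indicator hmE).div_const _
  · intro x y t ht ht1
    by_cases hx : x ∈ ordE R
    · by_cases hy : y ∈ ordE R
      · have hz : (1 - t) • x + t • y ∈ ordE R := by
          intro i j hij
          have h1 := hx i j hij
          have h2 := hy i j hij
          show (1 - t) * x i + t * y i ≤ (1 - t) * x j + t * y j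
          have : (1 - t) * x i ≤ (1 - t) * x j := mul_le_mul_of_nonneg_left h1 (by linarith)
          have : t * y i ≤ t * y j := mul_le_mul_of_nonneg_left h2 ht.le
          linarith
        unfold rR
        rw [if_pos hx, if_pos hy, if_pos hz, Real.div_rpow (h0 x) hpos.le,
          Real.div_rpow (h0 y) hpos.le, div_mul_div_comm, ← Real.rpow_add hpos]
        have : 1 - t + t = 1 := by ring
        rw [this, Real.rpow_one]
        exact div_le_div_of_nonneg_right (hl x y t ht ht1) hpos.le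
      · have h1 : rR ρ R y = 0 := by
          unfold rR
          rw [if_neg hy, zero_div]
        rw [h1, Real.zero_rpow ht.ne', mul_zero]
        exact hnn _
    · have h1 : rR ρ R x = 0 := by
        unfold rR
        rw [if_neg hx, zero_div]
      rw [h1, Real.zero_rpow (by linarith : (1 : ℝ) - t ≠ 0), zero_mul]
      exact hnn _
  · rw [e]
    exact (hint.indicator hmE).div_const _
  · rw [e]
    rw [integral_div, integral_indicator hmE]
    exact div_self hpos.ne'

/-- from compactly supported functions on `Fin n → ℝ` -/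
theorem pi_rR {ρ : Eu (Fin n) → ℝ} {R : Fin n → Fin n → Prop} {K : ℝ} (hL : LDn (rR ρ R))
    (hpos : 0 < ∫ x in ordE R, ρ x) (hK : 0 < K)
    (H : ∀ f : (Fin n → ℝ) → ℝ, ContDiff ℝ 1 f → HasCompactSupport f →
      (∫ x in ordc R, fl ρ x) * (∫ x in ordc R, fl ρ x * f x ^ 2) -
        (∫ x in ordc R, fl ρ x * f x) ^ 2 ≤
      (∫ x in ordc R, fl ρ x) * (K * ∫ x in ordc R, fl ρ x * gr f x)) :
    PI (volume.withDensity fun x => ENNReal.ofReal (rR ρ R x)) K := by
  have hprob : IsProbabilityMeasure (volume.withDensity fun x => ENNReal.ofReal (rR ρ R x)) := by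
    refine ⟨?_⟩
    rw [withDensity_apply _ MeasurableSet.univ, setLIntegral_univ,
      ← ofReal_integral_eq_lintegral_ofReal hL.int (Eventually.of_forall hL.nonneg), hL.one]
    simp
  refine Pool.Agent.J4H21.OC.Ext.t_EXT n _ hprob K hK ?_
  intro f hf hcs
  have h1 := H (f ∘ Pool.Agent.R711.POBE.L n) (hf.comp (Pool.Agent.R711.POBE.L n).contDiff)
    (hcs.comp_homeomorph (Pool.Agent.R711.POBE.L n).toHomeomorph)
  have e0 : ∀ G : Eu (Fin n) → ℝ, ∫ x in ordE R, G x = ∫ x in ordc R, G (WithLp.toLp 2 x) :=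
    fun G => Pool.Agent.J4H48.OC.eu_set_int R G
  have e1 : ∀ G : Eu (Fin n) → ℝ,
      ∫ x, G x ∂(volume.withDensity fun x => ENNReal.ofReal (rR ρ R x)) =
        (∫ x in ordc R, fl ρ x * G (WithLp.toLp 2 x)) / ∫ x in ordc R, fl ρ x := by
    intro G
    rw [Pool.Agent.J4H58.OC.int_dens hL]
    have e2 : (∫ x in ordc R, fl ρ x * G (WithLp.toLp 2 x)) = ∫ x in ordE R, ρ x * G x := by
      rw [e0]
      rfl
    have e3 : (∫ x in ordc R, fl ρ x) = ∫ x in ordE R, ρ x := by
      rw [e0]
      rfl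
    rw [e2, e3, ← integral_indicator (Pool.Agent.J4H48.OC.ordE_meas R), ← integral_div]
    congr 1
    funext x
    unfold rR
    by_cases h : x ∈ ordE R
    · rw [if_pos h, indicator_of_mem h]
      ring
    · rw [if_neg h, indicator_of_notMem h]
      simp
  have e4 : ∀ x : Fin n → ℝ, gr (f ∘ Pool.Agent.R711.POBE.L n) x =
      ‖fderiv ℝ f (WithLp.toLp 2 x)‖ ^ 2 := fun x => Pool.Agent.R711.POBE.sum_pd f x
  have e5 : ∀ x : Fin n → ℝ, (f ∘ Pool.Agent.R711.POBE.L n) x = f (WithLp.toLp 2 x) := fun x => rfl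
  simp only [e4, e5] at h1
  have hV : 0 < ∫ x in ordc R, fl ρ x := by
    have : (∫ x in ordc R, fl ρ x) = ∫ x in ordE R, ρ x := by
      rw [e0]
      rfl
    rw [this]
    exact hpos
  rw [e1 fun x => f x ^ 2, e1 f, e1 fun x => ‖fderiv ℝ f x‖ ^ 2]
  generalize (∫ x in ordc R, fl ρ x) = V at *
  generalize (∫ x in ordc R, fl ρ x * f (WithLp.toLp 2 x) ^ 2) = A at *
  generalize (∫ x in ordc R, fl ρ x * f (WithLp.toLp 2 x)) = B at *
  generalize (∫ x in ordc R, fl ρ x * ‖fderiv ℝ f (WithLp.toLp 2 x)‖ ^ 2) = D at *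
  have e2 : A / V - (B / V) ^ 2 = (V * A - B ^ 2) / V ^ 2 := by
    field_simp
  have e3 : K * (D / V) = (V * (K * D)) / V ^ 2 := by
    field_simp
  rw [e2, e3]
  exact div_le_div_of_nonneg_right h1 (by positivity)

theorem t_X17 : S_X17 := by
  intro n ρ R K hρ hint hpos hK H
  have hL := ld_rR (R := R) hρ.nonneg hρ.meas hρ.logc hint hpos
  exact ⟨hL, pi_rR hL hpos hK H⟩

end Pool.Agent.J4H58.XC
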