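import Pool.Agent.J4H58.XC.Stm4
import Pool.Agent.J4H58.OC.Asm3
import Pool.Agent.J4H57.OC.A4

/-! Cheeger's inequality for log-concave densities (project XC, job X20). -/

set_option autoImplicit false

namespace Pool.Agent.J4H58.XC

open MeasureTheory Set Filter Topology ProbabilityTheory
open scoped ENNReal InnerProductSpace
open Pool.Agent.W695.KH (Eu)
open Pool.Agent.J4H58.OC (ordE LDn PI)

theorem ld_prob {n : ℕ} {ρ : Eu (Fin n) → ℝ} (hL : LDn ρ) :
    IsProbabilityMeasure (volume.withDensity fun x => ENNReal.ofReal (ρ x)) := by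
  refine ⟨?_⟩
  rw [withDensity_apply _ MeasurableSet.univ, setLIntegral_univ,
    ← ofReal_integral_eq_lintegral_ofReal hL.int (Eventually.of_forall hL.nonneg), hL.one]
  simp

theorem t_X20 : S_X20 := by
  intro n ρ k hn hρ hk hPI S hS
  have hprob := ld_prob hρ
  have h1 := Pool.Agent.J4H58.OC.cheeger Pool.Agent.J4H57.OC.t_APX hn hρ hk hPI S hS
  set μ : Measure (Eu (Fin n)) := volume.withDensity fun x => ENNReal.ofReal (ρ x) with hμ
  have hP : bd μ S = liminf (fun ε : ℝ => (μ (Metric.thickening ε S) - μ S) / ENNReal.ofReal ε)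
    (𝓝[>] 0) := rfl
  rw [← hP] at h1
  have hsq : 0 < Real.sqrt k := Real.sqrt_pos.2 hk
  have h3 := Pool.Agent.J4H58.OC.min_le_two (p := μ S) prob_le_one
  calc ENNReal.ofReal (1 / (8 * Real.sqrt k)) * min (μ S) (1 - μ S)
      ≤ ENNReal.ofReal (1 / (8 * Real.sqrt k)) * (2 * (μ S * (1 - μ S))) := by gcongr
    _ ≤ ENNReal.ofReal (1 / (8 * Real.sqrt k)) * (2 * (ENNReal.ofReal (4 * Real.sqrt k) *
        bd μ S)) := by gcongr
    _ = bd μ S := by
        have e1 : (2 : ℝ≥0∞) = ENNReal.ofReal 2 := by norm_num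
        rw [e1, ← mul_assoc, ← mul_assoc, ← ENNReal.ofReal_mul (by positivity),
          ← ENNReal.ofReal_mul (by positivity)]
        have e2 : 1 / (8 * Real.sqrt k) * 2 * (4 * Real.sqrt k) = 1 := by
          field_simp
          norm_num
        rw [e2, ENNReal.ofReal_one, one_mul]

end Pool.Agent.J4H58.XC
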