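import Pool.Agent.J4H58.XC.Asm3
import Pool.Agent.J4H58.XC.X17
import Pool.Agent.J4H58.XC.X20
import Pool.Agent.J4H58.XC.Stm6

/-! Permutation invariant log-concave measures: conditioning and symmetric functions (project XC). -/

set_option autoImplicit false

namespace Pool.Agent.J4H58.XC.Exc

open MeasureTheory Set Filter Topology ProbabilityTheory
open scoped ENNReal InnerProductSpace
open Pool.Agent.W695.KH (Eu)
open Pool.Agent.J4H58.OC (ordE LDn PI SymF dgn)
open Pool.Agent.J4H58.XC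

variable {n : ℕ}

theorem mass {ρ : Eu (Fin n) → ℝ} (hρ : Ex ρ) {R : Fin n → Fin n → Prop}
    (h1 : ∀ a b, R a b → R b a → a = b) (h2 : ∀ a b c, R a b → R b c → R a c) :
    0 < ∫ x in ordE R, ρ x ∧ ∀ G : Eu (Fin n) → ℝ, (Integrable fun x => G x * ρ x) →
      SymF (fun x => G x * ρ x) → (∫ x in ordE R, G x * ρ x) / ∫ x in ordE R, ρ x =
        ∫ x, G x * ρ x := by
  obtain ⟨c, hc, H, -⟩ := Pool.Agent.J4H48.OC.t_SRT n R h1 h2
  have h3 := H ρ hρ.ld.int hρ.perm
  rw [hρ.ld.one, mul_one] at h3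
  refine ⟨by rw [h3]; exact hc, fun G hG hGs => ?_⟩
  rw [H _ hG hGs, h3]
  field_simp

/-- the conditioned measure -/
theorem given_eq {ρ : Eu (Fin n) → ℝ} (hρ : Ex ρ) {R : Fin n → Fin n → Prop}
    (hpos : 0 < ∫ x in ordE R, ρ x) :
    ((volume.withDensity fun x => ENNReal.ofReal (ρ x)) (ordE R))⁻¹ •
      (volume.withDensity fun x => ENNReal.ofReal (ρ x)).restrict (ordE R) = muR ρ R := by
  have hmE := Pool.Agent.J4H48.OC.ordE_meas R
  have e1 : (volume.withDensity fun x => ENNReal.ofReal (ρ x)) (ordE R) =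
      ENNReal.ofReal (∫ x in ordE R, ρ x) := by
    rw [withDensity_apply _ hmE, ofReal_integral_eq_lintegral_ofReal hρ.ld.int.integrableOn
      (Eventually.of_forall hρ.ld.nonneg)]
  rw [e1, restrict_withDensity hmE, ← withDensity_indicator hmE, ← withDensity_smul _
    (hρ.ld.meas.ennreal_ofReal.indicator hmE)]
  unfold muR
  congr 1
  funext x
  unfold rR
  show (ENNReal.ofReal (∫ x in ordE R, ρ x))⁻¹ •
    (ordE R).indicator (fun x => ENNReal.ofReal (ρ x)) x = _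
  rw [smul_eq_mul]
  by_cases h : x ∈ ordE R
  · rw [if_pos h, indicator_of_mem h, ENNReal.ofReal_div_of_pos hpos, mul_comm]
    rfl
  · rw [if_neg h, indicator_of_notMem h]
    simp

/-- the sum of the coordinates has the same variance -/
theorem var_sum (hM : S_MOM) (hn : 1 ≤ n) {ρ : Eu (Fin n) → ℝ} (hρ : Ex ρ)
    {R : Fin n → Fin n → Prop} (h1 : ∀ a b, R a b → R b a → a = b)
    (h2 : ∀ a b c, R a b → R b c → R a c) (hL : LDn (rR ρ R)) :
    variance (fun x : Eu (Fin n) => ∑ i, x i) (muR ρ R) =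
      variance (fun x : Eu (Fin n) => ∑ i, x i)
        (volume.withDensity fun x => ENNReal.ofReal (ρ x)) := by
  obtain ⟨A, b, -, -, hm, -⟩ := hM n ρ hn hρ.ld
  have hprob := muR_prob hL
  have hprob' := ld_prob hρ.ld
  obtain ⟨hpos, hMs⟩ := mass hρ h1 h2
  have hsum : ∀ (p : Equiv.Perm (Fin n)) (x : Eu (Fin n)), ∑ i, x (p i) = ∑ i, x i := fun p x =>
    Equiv.sum_comp p fun i => x i
  have hrp : ∀ (p : Equiv.Perm (Fin n)) (x : Eu (Fin n)),
      ρ (WithLp.toLp 2 fun i => x (p i)) = ρ x := hρ.perm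
  have hcs : ∀ x : Eu (Fin n), (∑ i, x i) ^ 2 ≤ n * ‖x‖ ^ 2 := by
    intro x
    have := sq_sum_le_card_mul_sum_sq (s := (Finset.univ : Finset (Fin n))) (f := fun i => x i)
    rw [EuclideanSpace.norm_sq_eq]
    simpa using this
  have i2 : Integrable fun x : Eu (Fin n) => (∑ i, x i) ^ 2 * ρ x := by
    refine (hm.const_mul (n : ℝ)).mono' ?_ (Eventually.of_forall fun x => ?_)
    · exact (Measurable.mul (by fun_prop) hρ.ld.meas).aestronglyMeasurable
    · rw [Real.norm_eq_abs, abs_of_nonneg (mul_nonneg (sq_nonneg _) (hρ.ld.nonneg x)),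
        ← mul_assoc]
      exact mul_le_mul_of_nonneg_right (hcs x) (hρ.ld.nonneg x)
  have i1 : Integrable fun x : Eu (Fin n) => (∑ i, x i) * ρ x := by
    refine (hρ.ld.int.add i2).mono' ?_ (Eventually.of_forall fun x => ?_)
    · exact (Measurable.mul (by fun_prop) hρ.ld.meas).aestronglyMeasurable
    · rw [Real.norm_eq_abs, abs_mul, abs_of_nonneg (hρ.ld.nonneg x)]
      show |∑ i, x i| * ρ x ≤ ρ x + (∑ i, x i) ^ 2 * ρ x
      have h3 : |∑ i, x i| ≤ 1 + (∑ i, x i) ^ 2 := by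
        rw [← sq_abs (∑ i, x i)]
        nlinarith [sq_nonneg (|∑ i, x i| - 1), abs_nonneg (∑ i, x i)]
      nlinarith [hρ.ld.nonneg x]
  have e1 : ∫ x : Eu (Fin n), (∑ i, x i) ∂(muR ρ R) = ∫ x : Eu (Fin n), (∑ i, x i) * ρ x := by
    rw [int_muR hL, hMs _ i1 (fun p x => by
      show (∑ i, x (p i)) * ρ (WithLp.toLp 2 fun i => x (p i)) = (∑ i, x i) * ρ x
      rw [hsum, hrp])]
  have e2 : ∫ x : Eu (Fin n), (∑ i, x i) ^ 2 ∂(muR ρ R) =
      ∫ x : Eu (Fin n), (∑ i, x i) ^ 2 * ρ x := by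
    rw [int_muR hL, hMs _ i2 (fun p x => by
      show (∑ i, x (p i)) ^ 2 * ρ (WithLp.toLp 2 fun i => x (p i)) = (∑ i, x i) ^ 2 * ρ x
      rw [hsum, hrp])]
  have m2 : MemLp (fun x : Eu (Fin n) => ∑ i, x i) 2 (muR ρ R) := by
    rw [memLp_two_iff_integrable_sq (by fun_prop)]
    unfold muR
    rw [integrable_withDensity_iff hL.meas.ennreal_ofReal
      (Eventually.of_forall fun x => ENNReal.ofReal_lt_top)]
    have i3 : Integrable fun x : Eu (Fin n) => (ordE R).indicator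
        (fun x : Eu (Fin n) => (∑ i, x i) ^ 2 * ρ x) x / ∫ y in ordE R, ρ y :=
      (i2.indicator (Pool.Agent.J4H48.OC.ordE_meas R)).div_const _
    refine i3.congr (Eventually.of_forall fun x => ?_)
    show _ = (∑ i, x i) ^ 2 * (ENNReal.ofReal (rR ρ R x)).toReal
    rw [ENNReal.toReal_ofReal (hL.nonneg x)]
    unfold rR
    dsimp only
    by_cases h : x ∈ ordE R
    · rw [if_pos h, indicator_of_mem h]
      ring
    · rw [if_neg h, indicator_of_notMem h]
      simp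
  have m3 : MemLp (fun x : Eu (Fin n) => ∑ i, x i) 2
      (volume.withDensity fun x => ENNReal.ofReal (ρ x)) := by
    rw [memLp_two_iff_integrable_sq (by fun_prop),
      integrable_withDensity_iff hρ.ld.meas.ennreal_ofReal
      (Eventually.of_forall fun x => ENNReal.ofReal_lt_top)]
    refine i2.congr (Eventually.of_forall fun x => ?_)
    show _ = (∑ i, x i) ^ 2 * (ENNReal.ofReal (ρ x)).toReal
    rw [ENNReal.toReal_ofReal (hρ.ld.nonneg x)]
  rw [variance_eq_sub m2, variance_eq_sub m3]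
  have f1 : ∫ x : Eu (Fin n), (∑ i, x i)
      ∂(volume.withDensity fun x => ENNReal.ofReal (ρ x)) = ∫ x : Eu (Fin n), (∑ i, x i) * ρ x :=
    Pool.Agent.J4H58.OC.int_dens hρ.ld _
  have f2 : ∫ x : Eu (Fin n), (∑ i, x i) ^ 2
      ∂(volume.withDensity fun x => ENNReal.ofReal (ρ x)) =
      ∫ x : Eu (Fin n), (∑ i, x i) ^ 2 * ρ x :=
    Pool.Agent.J4H58.OC.int_dens hρ.ld _
  have g1 : (∫ x : Eu (Fin n), ((fun x : Eu (Fin n) => ∑ i, x i) ^ 2) x ∂(muR ρ R)) =
      ∫ x : Eu (Fin n), (∑ i, x i) ^ 2 * ρ x := e2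
  have g2 : (∫ x : Eu (Fin n), ((fun x : Eu (Fin n) => ∑ i, x i) ^ 2) x
      ∂(volume.withDensity fun x => ENNReal.ofReal (ρ x))) =
      ∫ x : Eu (Fin n), (∑ i, x i) ^ 2 * ρ x := f2
  rw [g1, g2, e1, f1]

end Pool.Agent.J4H58.XC.Exc
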