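import Pool.Agent.J4H58.XC.Cmp
import Pool.Agent.J4H58.XC.Exc

/-! Permutation invariant log-concave measures: everything (project XC). -/

set_option autoImplicit false

namespace Pool.Agent.J4H58.XC.Exd

open MeasureTheory Set Filter Topology ProbabilityTheory
open scoped ENNReal InnerProductSpace
open Pool.Agent.W695.KH (Eu)
open Pool.Agent.J4H58.OC (ordE LDn PI SymF dgn)
open Pool.Agent.J4H58.XC

variable {n : ℕ}

theorem hM : S_MOM := Pool.Agent.J4H74.XC.Mom.t_MOM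

/-- second moments -/
theorem memLp (hn : 1 ≤ n) {ρ : Eu (Fin n) → ℝ} (hL : LDn ρ) (θ : Eu (Fin n)) :
    MemLp (fun x => ⟪x, θ⟫_ℝ) 2 (volume.withDensity fun x => ENNReal.ofReal (ρ x)) := by
  obtain ⟨A, b, -, -, hm, -⟩ := hM n ρ hn hL
  rw [memLp_two_iff_integrable_sq (by fun_prop),
    integrable_withDensity_iff hL.meas.ennreal_ofReal
      (Eventually.of_forall fun x => ENNReal.ofReal_lt_top)]
  refine (hm.const_mul (‖θ‖ ^ 2)).mono' ?_ (Eventually.of_forall fun x => ?_)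
  · refine (Measurable.mul ?_ ?_).aestronglyMeasurable
    · fun_prop
    · exact hL.meas.ennreal_ofReal.ennreal_toReal
  · rw [ENNReal.toReal_ofReal (hL.nonneg x), Real.norm_eq_abs,
      abs_of_nonneg (mul_nonneg (sq_nonneg _) (hL.nonneg x)), ← mul_assoc]
    refine mul_le_mul_of_nonneg_right ?_ (hL.nonneg x)
    rw [← mul_pow, ← sq_abs]
    refine pow_le_pow_left₀ (abs_nonneg _) ?_ 2
    rw [mul_comm]
    exact abs_real_inner_le_norm x θ

theorem dgn_sum (x : Eu (Fin n)) : ⟪x, dgn n⟫_ℝ = 1 / Real.sqrt n * ∑ i, x i := by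
  unfold dgn
  rw [PiLp.inner_apply, Finset.mul_sum]
  apply Finset.sum_congr rfl
  intro i _
  simp

/-- everything about the conditioned measure -/
theorem full (hn : 1 ≤ n) {ρ : Eu (Fin n) → ℝ} (hρ : Ex ρ) {R : Fin n → Fin n → Prop}
    (h1 : ∀ a b, R a b → R b a → a = b) (h2 : ∀ a b c, R a b → R b c → R a c) :
    ((volume.withDensity fun x => ENNReal.ofReal (ρ x)) (ordE R))⁻¹ •
      (volume.withDensity fun x => ENNReal.ofReal (ρ x)).restrict (ordE R) = muR ρ R ∧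
    LDn (rR ρ R) ∧
    (∀ K : ℝ, 0 < K → PI (volume.withDensity fun x => ENNReal.ofReal (ρ x)) K →
      PI (muR ρ R) K ∧ ∀ S : Set (Eu (Fin n)), MeasurableSet S →
        ENNReal.ofReal (1 / (8 * Real.sqrt K)) * min (muR ρ R S) (muR ρ R Sᶜ) ≤
          bd (muR ρ R) S) ∧
    variance (fun x : Eu (Fin n) => ∑ i, x i) (muR ρ R) =
      variance (fun x : Eu (Fin n) => ∑ i, x i)
        (volume.withDensity fun x => ENNReal.ofReal (ρ x)) ∧
    ∀ κ : ℝ, 0 < κ → PI (volume.withDensity fun x => ENNReal.ofReal (ρ x))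
        (κ * (variance (fun x : Eu (Fin n) => ∑ i, x i)
          (volume.withDensity fun x => ENNReal.ofReal (ρ x)) / n)) →
      ∀ s : ℝ, 0 < s →
      (∀ θ : Eu (Fin n), ‖θ‖ = 1 → variance (fun x => ⟪x, θ⟫_ℝ) (muR ρ R) ≤ s) →
      ∀ S : Set (Eu (Fin n)), MeasurableSet S →
        ENNReal.ofReal (1 / (8 * Real.sqrt κ) / Real.sqrt s) * min (muR ρ R S) (muR ρ R Sᶜ) ≤
          bd (muR ρ R) S := by
  have hn0 : (0 : ℝ) < n := by exact_mod_cast hn
  obtain ⟨hpos, -⟩ := Exc.mass hρ h1 h2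
  have hL : LDn (rR ρ R) := ld_rR hρ.ld.nonneg hρ.ld.meas hρ.ld.logc hρ.ld.int hpos
  have hprob := muR_prob hL
  have hK : ∀ K : ℝ, 0 < K → PI (volume.withDensity fun x => ENNReal.ofReal (ρ x)) K →
      PI (muR ρ R) K ∧ ∀ S : Set (Eu (Fin n)), MeasurableSet S →
        ENNReal.ofReal (1 / (8 * Real.sqrt K)) * min (muR ρ R S) (muR ρ R Sᶜ) ≤
          bd (muR ρ R) S := by
    intro K hK hPI
    have h3 := (Cm.exch n ρ R K hn hρ hK hPI h1 h2).2
    refine ⟨h3, fun S hS => ?_⟩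
    rw [prob_compl_eq_one_sub hS]
    exact t_X20 n (rR ρ R) K hn hL hK h3 S hS
  have hv := Exc.var_sum hM hn hρ h1 h2 hL
  refine ⟨Exc.given_eq hρ hpos, hL, hK, hv, ?_⟩
  intro κ hκ hPI s hs hvar S hS
  have h3 := hvar (dgn n) (dgn_norm hn)
  have e : (fun x : Eu (Fin n) => ⟪x, dgn n⟫_ℝ) = fun x => 1 / Real.sqrt n * ∑ i, x i := by
    funext x
    exact dgn_sum x
  rw [e, variance_const_mul, hv] at h3
  have h4 : (1 / Real.sqrt n) ^ 2 = 1 / (n : ℝ) := by
    rw [div_pow, Real.sq_sqrt hn0.le, one_pow]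
  rw [h4, one_div_mul_eq_div] at h3
  have hPI2 : PI (volume.withDensity fun x => ENNReal.ofReal (ρ x)) (κ * s) := by
    intro f hf
    refine (hPI f hf).trans ?_
    gcongr
  have h5 := (hK (κ * s) (by positivity) hPI2).2 S hS
  have e2 : 1 / (8 * Real.sqrt (κ * s)) = 1 / (8 * Real.sqrt κ) / Real.sqrt s := by
    rw [Real.sqrt_mul hκ.le, div_div]
    ring
  rw [e2] at h5
  exact h5

end Pool.Agent.J4H58.XC.Exd
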