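import Pool.Agent.J4H58.XC.Asm3
import Pool.Agent.J4H58.XC.X17
import Pool.Agent.J4H58.XC.X20
import Pool.Agent.J4H58.XC.Stm6

/-! Assembly, part 4: KLS for conditioned 1-symmetric measures (project XC). -/

set_option autoImplicit false

namespace Pool.Agent.J4H58.XC

open MeasureTheory Set Filter Topology ProbabilityTheory
open scoped ENNReal InnerProductSpace
open Pool.Agent.W695.KH (Eu)
open Pool.Agent.J4H58.OC (ordE LDn PI SymF dgn)

variable {n : ℕ}

/-- the irreflexive part -/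
def irf (R : Fin n → Fin n → Prop) : Fin n → Fin n → Prop := fun a b => R a b ∧ a ≠ b

theorem ordE_irf (R : Fin n → Fin n → Prop) : ordE (irf R) = ordE R := by
  ext x
  constructor
  · intro h i j hij
    rcases eq_or_ne i j with rfl | hne
    · exact le_rfl
    · exact h i j ⟨hij, hne⟩
  · intro h i j hij
    exact h i j hij.1

theorem rR_irf (ρ : Eu (Fin n) → ℝ) (R : Fin n → Fin n → Prop) : rR ρ (irf R) = rR ρ R := by
  funext x
  unfold rR
  rw [ordE_irf]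

theorem ld_of {ρ : Eu (Fin n) → ℝ} (hρ : Sd ρ) (hint : Integrable ρ) (hone : ∫ x, ρ x = 1) :
    LDn ρ := ⟨hρ.nonneg, hρ.meas, hρ.logc, hint, hone⟩

/-- second moments -/
theorem moments (hM : S_MOM) (hn : 1 ≤ n) {ρ : Eu (Fin n) → ℝ} (hρ : Sd ρ) (hint : Integrable ρ)
    (hone : ∫ x, ρ x = 1) : (∀ i, Integrable fun x : Eu (Fin n) => x i ^ 2 * ρ x) ∧
    ∃ v : ℝ, 0 < v ∧ ∀ i, ∫ x : Eu (Fin n), x i ^ 2 * ρ x = v := by
  obtain ⟨A, b, -, -, h1, h2⟩ := hM n ρ hn (ld_of hρ hint hone)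
  have hi : ∀ i, Integrable fun x : Eu (Fin n) => x i ^ 2 * ρ x := by
    intro i
    refine h1.mono' ?_ (Eventually.of_forall fun x => ?_)
    · exact (Measurable.mul (by fun_prop) hρ.meas).aestronglyMeasurable
    · rw [Real.norm_eq_abs, abs_of_nonneg (mul_nonneg (sq_nonneg _) (hρ.nonneg x))]
      refine mul_le_mul_of_nonneg_right ?_ (hρ.nonneg x)
      rw [EuclideanSpace.norm_sq_eq]
      have := Finset.single_le_sum (f := fun j : Fin n => ‖x j‖ ^ 2)
        (fun j _ => sq_nonneg _) (Finset.mem_univ i)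
      simpa using this
  refine ⟨hi, ∫ x : Eu (Fin n), x ⟨0, hn⟩ ^ 2 * ρ x, ?_, fun i => mom_eq hρ i _⟩
  have e : ∫ x, ‖x‖ ^ 2 * ρ x = n * ∫ x : Eu (Fin n), x ⟨0, hn⟩ ^ 2 * ρ x := by
    have e1 : ∀ x : Eu (Fin n), ‖x‖ ^ 2 * ρ x = ∑ i, x i ^ 2 * ρ x := by
      intro x
      rw [EuclideanSpace.norm_sq_eq, Finset.sum_mul]
      refine Finset.sum_congr rfl fun i _ => ?_
      rw [Real.norm_eq_abs, sq_abs]
    simp only [e1]
    rw [integral_finsetSum _ fun i _ => hi i]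
    rw [Finset.sum_congr rfl fun i _ => mom_eq hρ i ⟨0, hn⟩]
    simp
  rw [e] at h2
  have hn0 : (0 : ℝ) < n := by exact_mod_cast hn
  exact (mul_pos_iff_of_pos_left hn0).1 h2

/-- the conditioned measure -/
theorem given_eq {ρ : Eu (Fin n) → ℝ} (hρ : Sd ρ) (hint : Integrable ρ)
    {R : Fin n → Fin n → Prop} (hpos : 0 < ∫ x in ordE R, ρ x) :
    ((volume.withDensity fun x => ENNReal.ofReal (ρ x)) (ordE R))⁻¹ •
      (volume.withDensity fun x => ENNReal.ofReal (ρ x)).restrict (ordE R) = muR ρ R := by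
  have hmE := Pool.Agent.J4H48.OC.ordE_meas R
  have e1 : (volume.withDensity fun x => ENNReal.ofReal (ρ x)) (ordE R) =
      ENNReal.ofReal (∫ x in ordE R, ρ x) := by
    rw [withDensity_apply _ hmE, ofReal_integral_eq_lintegral_ofReal hint.integrableOn
      (Eventually.of_forall hρ.nonneg)]
  rw [e1, restrict_withDensity hmE, ← withDensity_indicator hmE, ← withDensity_smul _
    (hρ.meas.ennreal_ofReal.indicator hmE)]
  unfold muR
  congr 1
  funext x
  unfold rR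
  show (ENNReal.ofReal (∫ x in ordE R, ρ x))⁻¹ •
    (ordE R).indicator (fun x => ENNReal.ofReal (ρ x)) x = _
  rw [smul_eq_mul]
  by_cases h : x ∈ ordE R
  · rw [if_pos h, indicator_of_mem h, ENNReal.ofReal_div_of_pos hpos, mul_comm]
    rfl
  · rw [if_neg h, indicator_of_notMem h]
    simp

/-- **KLS for conditioned 1-symmetric measures** -/
theorem kls (hM : S_MOM) {C : ℝ} (hC : 0 < C)
    (H : ∀ (n : ℕ) (ρ : Eu (Fin n) → ℝ) (s : ℝ) (R : Fin n → Fin n → Prop), 1 ≤ n →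
      Sd ρ → Integrable ρ → ∫ x, ρ x = 1 → (∀ i, Integrable fun x : Eu (Fin n) => x i ^ 2 * ρ x) →
      0 < s → (∀ i, ∫ x : Eu (Fin n), x i ^ 2 * ρ x ≤ s) → (∀ a, ¬ R a a) →
      0 < ∫ x in ordE R, ρ x →
      LDn (rR ρ R) ∧ PI (volume.withDensity fun x => ENNReal.ofReal (rR ρ R x)) (C * s))
    {ρ : Eu (Fin n) → ℝ} {R : Fin n → Fin n → Prop} (hn : 1 ≤ n) (hρ : Sd ρ)
    (hint : Integrable ρ) (hone : ∫ x, ρ x = 1) (h1 : ∀ a b, R a b → R b a → a = b)
    (h2 : ∀ a b c, R a b → R b c → R a c) :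
    0 < ∫ x in ordE R, ρ x ∧ IsProbabilityMeasure (muR ρ R) ∧ ∀ s : ℝ, 0 < s →
      (∀ θ : Eu (Fin n), ‖θ‖ = 1 → variance (fun x => ⟪x, θ⟫_ℝ) (muR ρ R) ≤ s) →
      PI (muR ρ R) (C * s) ∧
      ∀ S : Set (Eu (Fin n)), MeasurableSet S →
        ENNReal.ofReal (1 / (8 * Real.sqrt C) / Real.sqrt s) * min (muR ρ R S) (muR ρ R Sᶜ) ≤
          bd (muR ρ R) S := by
  obtain ⟨hi, v, hv, hvi⟩ := moments hM hn hρ hint hone
  obtain ⟨hpos, -⟩ := mass hρ hint hone h1 h2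
  have hpos' : 0 < ∫ x in ordE (irf R), ρ x := by rw [ordE_irf]; exact hpos
  obtain ⟨hL, hPI⟩ := H n ρ v (irf R) hn hρ hint hone hi hv (fun i => (hvi i).le)
    (fun a h => h.2 rfl) hpos'
  rw [rR_irf] at hL hPI
  refine ⟨hpos, muR_prob hL, fun s hs hvar => ?_⟩
  have hvs : v ≤ s := by
    have h3 := hvar (dgn n) (dgn_norm hn)
    have h4 := dir_var hn hρ hint hone hi hvi h1 h2 hL
    have e : (fun x : Eu (Fin n) => ⟪x, dgn n⟫_ℝ) = fun x => ⟪dgn n, x⟫_ℝ := by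
      funext x
      exact real_inner_comm _ _
    rw [e, h4] at h3
    exact h3
  have hPI2 : PI (muR ρ R) (C * s) := by
    intro f hf
    refine (hPI f hf).trans ?_
    show _ ≤ ENNReal.ofReal (C * s) * ∫⁻ x, ENNReal.ofReal (‖fderiv ℝ f x‖ ^ 2) ∂(muR ρ R)
    unfold muR
    gcongr
  refine ⟨hPI2, fun S hS => ?_⟩
  have h5 := t_X20 n (rR ρ R) (C * s) hn hL (by positivity) hPI2 S hS
  have hprob := muR_prob hL
  rw [prob_compl_eq_one_sub hS]
  have e : 1 / (8 * Real.sqrt (C * s)) = 1 / (8 * Real.sqrt C) / Real.sqrt s := by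
    rw [Real.sqrt_mul hC.le, div_div]
    ring
  rw [e] at h5
  exact h5

end Pool.Agent.J4H58.XC
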