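import Mathlib

/-!
# Order constraints and the spectral gap of exchangeable systems: finite statements (project XC)

A finite reversible chain is given by weights `m` and symmetric conductances `c`; `A` is a finite set of
states (the conductances out of `A` are cut). For the systems of project XC the states are `(y, q)`,
`y` a point of a set `B` and `q` a permutation (`q i` is the label of the particle of rank `i`).
-/

set_option autoImplicit false

namespace Pool.Agent.J4H58.XC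

open Finset

/-! ### a finite reversible chain, restricted to `A` -/

section chain

variable {S : Type} (A : Finset S) (m : S → ℝ) (c : S → S → ℝ)

/-- energy -/
noncomputable def en (F : S → ℝ) : ℝ := 1 / 2 * ∑ s ∈ A, ∑ t ∈ A, c s t * (F t - F s) ^ 2

/-- one step of the chain -/
noncomputable def st (ε : ℝ) (F : S → ℝ) : S → ℝ := fun s =>
  F s + ε / m s * ∑ t ∈ A, c s t * (F t - F s)

/-- Poincare inequality with constant `K` -/
def PA (K : ℝ) : Prop := ∀ F : S → ℝ,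
  (∑ s ∈ A, m s) * ∑ s ∈ A, m s * F s ^ 2 - (∑ s ∈ A, m s * F s) ^ 2 ≤
    (∑ s ∈ A, m s) * (K * en A c F)

/-- the hypotheses on weights and conductances -/
structure Ch : Prop where
  pos : ∀ s ∈ A, 0 < m s
  nn : ∀ s t, 0 ≤ c s t
  symm : ∀ s t, c s t = c t s

end chain

/-- X1 (DEC): Poincare's inequality gives the decay of functions with mean zero. (`T = st` is self
adjoint for `⟨F, G⟩ = ∑ m F G`, `⟨T F, F⟩ = ⟨F, F⟩ - ε en F`, `0 ≤ T` because
`en F ≤ 2 ∑_s F_s² ∑_t c s t`; so `‖T F‖ ≤ (1 - ε / K) ‖F‖` on mean zero functions by the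
Cauchy-Schwarz inequality of the form `⟨T ·, ·⟩`.) -/
def S_X1 : Prop := ∀ (S : Type) [DecidableEq S] (A : Finset S) (m : S → ℝ) (c : S → S → ℝ)
  (K ε : ℝ), Ch A m c → 0 < K → 0 < ε → (∀ s ∈ A, ε * ∑ t ∈ A, c s t ≤ m s / 2) → PA A m c K →
  ∀ F : S → ℝ, ∑ s ∈ A, m s * F s = 0 → ∀ k : ℕ,
    ∑ s ∈ A, m s * (((st A m c ε)^[k]) F s) ^ 2 ≤ (1 - ε / K) ^ (2 * k) * ∑ s ∈ A, m s * F s ^ 2

/-- X2 (GAP): the decay of every function with mean zero gives Poincare's inequality (the sequence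
`u k = ⟨T^k F, F⟩` is log-convex and `≤ C θ^k`, so `u 1 ≤ θ u 0`) -/
def S_X2 : Prop := ∀ (S : Type) [DecidableEq S] (A : Finset S) (m : S → ℝ) (c : S → S → ℝ)
  (K ε : ℝ), Ch A m c → 0 < ε → ε < K → (∀ s ∈ A, ε * ∑ t ∈ A, c s t ≤ m s / 2) →
  (∀ F : S → ℝ, ∑ s ∈ A, m s * F s = 0 → ∃ C : ℝ, ∀ k : ℕ,
    ∑ s ∈ A, m s * (((st A m c ε)^[k]) F s) ^ 2 ≤ C * (1 - ε / K) ^ (2 * k)) →
  PA A m c K

/-! ### exchangeable systems -/

/-- linear extensions of `R`; `q i` is the label of rank `i` -/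
def Lin {n : ℕ} (R : Fin n → Fin n → Prop) : Set (Equiv.Perm (Fin n)) :=
  {q | ∀ i j, R (q i) (q j) → i < j}

section sys

variable {n : ℕ} {Y : Type} [DecidableEq Y]

open Classical in
/-- conductances: `a y z` for the moves of `y`, `l i y` for the exchange of the labels of ranks `i` and
`i + 1` -/
noncomputable def cd (a : Y → Y → ℝ) (l : ℕ → Y → ℝ) :
    Y × Equiv.Perm (Fin n) → Y × Equiv.Perm (Fin n) → ℝ := fun s t =>
  (if s.2 = t.2 then a s.1 t.1 else 0) +
    (if s.1 = t.1 then ∑ i : Fin n, ∑ j : Fin n,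
      (if (i : ℕ) + 1 = j ∧ t.2 = s.2 * Equiv.swap i j then l i s.1 else 0) else 0)

open Classical in
/-- the states which are compatible with `R` -/
noncomputable def sts (B : Finset Y) (R : Fin n → Fin n → Prop) :
    Finset (Y × Equiv.Perm (Fin n)) := B ×ˢ (Finset.univ.filter fun q => q ∈ Lin R)

/-- hypotheses on a system -/
structure Sys (B : Finset Y) (p : Y → ℝ) (a : Y → Y → ℝ) (l : ℕ → Y → ℝ) : Prop where
  pos : ∀ y ∈ B, 0 < p y
  ann : ∀ y z, 0 ≤ a y z
  asymm : ∀ y z, a y z = a z y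
  lnn : ∀ k y, 0 ≤ l k y

/-- one step of the tagged particle: `Θ y r` is a function of `y` and the rank `r` -/
noncomputable def tg (B : Finset Y) (p : Y → ℝ) (a : Y → Y → ℝ) (l : ℕ → Y → ℝ) (ε : ℝ)
    (Θ : Y → Fin n → ℝ) : Y → Fin n → ℝ := fun y r =>
  Θ y r + ε / p y * (∑ z ∈ B, a y z * (Θ z r - Θ y r) +
    ∑ i : Fin n, ∑ j : Fin n, (if (i : ℕ) + 1 = j then l i y * (Θ y (Equiv.swap i j r) - Θ y r)
      else 0))

/-- `Θ` increases with the rank and dominates the variations of `F` -/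
structure Dm (B : Finset Y) (R : Fin n → Fin n → Prop) (F : Y × Equiv.Perm (Fin n) → ℝ)
    (Θ : Y → Fin n → ℝ) : Prop where
  mono : ∀ y ∈ B, ∀ i j : Fin n, i ≤ j → Θ y i ≤ Θ y j
  dom : ∀ y ∈ B, ∀ q : Equiv.Perm (Fin n), ∀ i j : Fin n, i < j → q ∈ Lin R →
    q * Equiv.swap i j ∈ Lin R → |F (y, q * Equiv.swap i j) - F (y, q)| ≤ Θ y j - Θ y i

end sys

/-- X3 (DOM): one step preserves the domination. (For the exchange of ranks `k`, `k + 1` at `q` and at
`q' = q * swap i j`: if both are allowed the new difference is again of the form of `dom`; if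
`k, k + 1` are strictly outside `i, j` or between them both or neither are allowed; for
`k + 1 = i` or `k = j` possibly exactly one of them is, and then
`|F (q * swap k (k+1)) - F q| ≤ Θ (k+1) - Θ k` is the change of `Θ j - Θ i`; for `i = k`,
`j = k + 1` the difference changes its sign, which is fine because of the condition on `ε`.) -/
def S_X3 : Prop := ∀ (n : ℕ) (Y : Type) [DecidableEq Y] (B : Finset Y) (p : Y → ℝ)
  (a : Y → Y → ℝ) (l : ℕ → Y → ℝ) (R : Fin n → Fin n → Prop) (ε : ℝ), Sys B p a l → 0 < ε →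
  (∀ y ∈ B, ε * (∑ z ∈ B, a y z + 2 * ∑ k ∈ range n, l k y) ≤ p y / 2) →
  ∀ (F : Y × Equiv.Perm (Fin n) → ℝ) (Θ : Y → Fin n → ℝ), Dm B R F Θ →
    Dm B R (st (sts B R) (fun s => p s.1) (cd a l) ε F) (tg B p a l ε Θ)

/-- X4 (CONL): linear extensions are connected by exchanges of neighbours -/
def S_X4 : Prop := ∀ n : ℕ, ∃ M : ℝ, ∀ (R : Fin n → Fin n → Prop) (h : Equiv.Perm (Fin n) → ℝ)
  (D : ℝ), 0 ≤ D → (∀ q ∈ Lin R, ∀ i j : Fin n, (i : ℕ) + 1 = j → q * Equiv.swap i j ∈ Lin R →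
    |h (q * Equiv.swap i j) - h q| ≤ D) →
  ∀ q ∈ Lin R, ∀ q' ∈ Lin R, |h q - h q'| ≤ M * D

/-- X5 (TAG): the tagged particle and the mean over the labels.
(1) a function of `y` and of the rank of the label `v`, in the full system;
(2) the sum over the labels is a function of `y` alone, which evolves as in the full system. -/
def S_X5 : Prop := ∀ (n : ℕ) (Y : Type) [DecidableEq Y] (B : Finset Y) (p : Y → ℝ)
  (a : Y → Y → ℝ) (l : ℕ → Y → ℝ) (R : Fin n → Fin n → Prop) (ε : ℝ), Sys B p a l →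
  (∀ (Θ : Y → Fin n → ℝ) (v : Fin n) (k : ℕ), ∀ y ∈ B, ∀ q : Equiv.Perm (Fin n),
    ((st (sts B fun _ _ => False) (fun s => p s.1) (cd a l) ε)^[k])
      (fun s => Θ s.1 (s.2⁻¹ v)) (y, q) = ((tg B p a l ε)^[k]) Θ y (q⁻¹ v)) ∧
  (∀ (F : Y × Equiv.Perm (Fin n) → ℝ) (k : ℕ), ∀ y ∈ B, ∀ q : Equiv.Perm (Fin n),
    ((st (sts B fun _ _ => False) (fun s => p s.1) (cd a l) ε)^[k])
      (fun s => ∑ t ∈ sts {s.1} R, F t) (y, q) =
    ∑ t ∈ sts {y} R, ((st (sts B R) (fun s => p s.1) (cd a l) ε)^[k]) F t)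

/-- X6 (CMP), the comparison theorem: order constraints do not decrease the spectral gap of an
exchangeable system -/
def S_CMP : Prop := ∀ (n : ℕ) (Y : Type) [DecidableEq Y] (B : Finset Y) (p : Y → ℝ)
  (a : Y → Y → ℝ) (l : ℕ → Y → ℝ) (R : Fin n → Fin n → Prop) (K : ℝ), Sys B p a l → 0 < K →
  PA (sts B fun _ _ => False) (fun s => p s.1) (cd (n := n) a l) K →
  PA (sts B R) (fun s => p s.1) (cd a l) K

end Pool.Agent.J4H58.XC
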