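import Pool.Agent.J4H58.XC.Stm

/-!
# Order constraints and the spectral gap of exchangeable systems: the grid (project XC)

`n` particles on `{0, ..., N}`. A point `x` of the grid `{0, ..., N}ⁿ` (positions of the labelled
particles) is written `x = y ∘ q⁻¹`, `y` monotone, `q` a permutation: `y` is unique, and `q` is unique
up to the stabiliser of `y`.
-/

set_option autoImplicit false

namespace Pool.Agent.J4H58.XC

open Finset

/-- the grid `{0, ..., N}ⁿ` -/
def box (n N : ℕ) : Finset (Fin n → ℕ) := Fintype.piFinset fun _ => range (N + 1)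

open Classical in
/-- its monotone points -/
noncomputable def mb (n N : ℕ) : Finset (Fin n → ℕ) := (box n N).filter fun y => Monotone y

/-- weights: `r` on the points of the grid (zero for points with two equal coordinates), `s x i` for
the edge from `x` to `x + e_i`; both are symmetric -/
structure Wt (n : ℕ) (r : (Fin n → ℕ) → ℝ) (s : (Fin n → ℕ) → Fin n → ℝ) : Prop where
  nn : ∀ x, 0 ≤ r x
  inj : ∀ x, ¬ Function.Injective x → r x = 0
  rsym : ∀ (x : Fin n → ℕ) (σ : Equiv.Perm (Fin n)), r (x ∘ σ) = r x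
  spos : ∀ x i, 0 < s x i
  ssym : ∀ (x : Fin n → ℕ) (σ : Equiv.Perm (Fin n)) (i : Fin n), s (x ∘ σ) i = s x (σ i)

/-- Poincare inequality on the grid -/
def GI (n N : ℕ) (r : (Fin n → ℕ) → ℝ) (s : (Fin n → ℕ) → Fin n → ℝ) (K : ℝ) : Prop :=
  ∀ f : (Fin n → ℕ) → ℝ, ∃ b : ℝ, ∑ x ∈ box n N, r x * (f x - b) ^ 2 ≤
    K * ∑ x ∈ box n N, ∑ i : Fin n,
      (if x i < N then s x i * (f (x + Pi.single i 1) - f x) ^ 2 else 0)

open Classical in
/-- conductances of the moves `y → y ± e_k` -/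
noncomputable def ga {n : ℕ} (s : (Fin n → ℕ) → Fin n → ℝ) (y z : Fin n → ℕ) : ℝ :=
  ∑ k : Fin n, ((if z = y + Pi.single k 1 then s y k else 0) +
    (if y = z + Pi.single k 1 then s z k else 0))

open Classical in
/-- conductance `Λ` for the exchange of two labels with the same position -/
noncomputable def gl {n : ℕ} (Λ : ℝ) (k : ℕ) (y : Fin n → ℕ) : ℝ :=
  if ∃ i j : Fin n, (i : ℕ) = k ∧ (j : ℕ) = k + 1 ∧ y i = y j then Λ else 0

open Classical in
/-- X7a (STG): for monotone `y` the stabiliser of `y` is generated by the exchanges of neighbours which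
have the same position -/
def S_X7a : Prop := ∀ n : ℕ, ∃ C : ℝ, 0 ≤ C ∧ ∀ (y : Fin n → ℕ), Monotone y →
  ∀ g : Equiv.Perm (Fin n), y ∘ g = y → ∀ h : Equiv.Perm (Fin n) → ℝ,
  ∑ q : Equiv.Perm (Fin n), (h (q * g) - h q) ^ 2 ≤
    C * ∑ q : Equiv.Perm (Fin n), ∑ i : Fin n, ∑ j : Fin n,
      (if (i : ℕ) + 1 = j ∧ y i = y j then (h (q * Equiv.swap i j) - h q) ^ 2 else 0)

/-- X7b (CRU): the full system is connected, so there is some (large) constant -/
def S_X7b : Prop := ∀ (n N : ℕ) (s : (Fin n → ℕ) → Fin n → ℝ), (∀ x i, 0 < s x i) →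
  ∃ C : ℝ, 0 ≤ C ∧ ∀ F : (Fin n → ℕ) × Equiv.Perm (Fin n) → ℝ,
  ∀ t t' : (Fin n → ℕ) × Equiv.Perm (Fin n), t.1 ∈ mb n N → t'.1 ∈ mb n N →
    (F t - F t') ^ 2 ≤ C * en (sts (mb n N) (fun _ _ => False)) (cd (ga s) (gl 1)) F

/-- X7 (STK): from the grid to the full system, with exchanges of equal particles at a high rate.
(`f x = F (x ∘ q_x, q_x)`, `q_x = Tuple.sort x`. For an edge `(x, x + e_i)` let `q''` sort the keys
`2 x_j + 1{j = i}`; then `x ∘ q''` and `(x + e_i) ∘ q''` are monotone, `= y` and `y + e_k`,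
`q'' k = i`, and `q''` differs from `q_x` by an element of the stabiliser of `y`, from `q_{x + e_i}` by one
of the stabiliser of `y + e_k`: `(f (x + e_i) - f x)² ≤ (1 + δ) (F (y + e_k, q'') - F (y, q''))² + C_δ (...)`, and
`(x, i) ↦ (y, q'', k)` is injective. The last terms are bounded by exchange energy (X7a). On
the left side the weights `κ` are absorbed by X7b. First `δ`, `κ` small, then `Λ` large.) -/
def S_X7 : Prop := ∀ (n N : ℕ) (r : (Fin n → ℕ) → ℝ) (s : (Fin n → ℕ) → Fin n → ℝ) (K K' : ℝ),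
  Wt n r s → 0 < K → K < K' → GI n N r s K → ∃ κ Λ : ℝ, 0 < κ ∧ 0 < Λ ∧
    PA (sts (n := n) (mb n N) (fun _ _ => False))
      (fun t : (Fin n → ℕ) × Equiv.Perm (Fin n) => r t.1 + κ) (cd (ga s) (gl Λ)) K'

open Classical in
/-- multiplicity -/
noncomputable def mu {n : ℕ} (x : Fin n → ℕ) : ℝ :=
  if Function.Injective x then 1 else (n.factorial : ℝ)

open Classical in
/-- Poincare inequality for the points of the grid which are compatible with `R` -/
def GR (n N : ℕ) (R : Fin n → Fin n → Prop) (r : (Fin n → ℕ) → ℝ)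
    (s : (Fin n → ℕ) → Fin n → ℝ) (K : ℝ) : Prop :=
  ∀ f : (Fin n → ℕ) → ℝ, ∃ b : ℝ,
    ∑ x ∈ box n N, (if ∀ i j, R i j → x i < x j then r x * (f x - b) ^ 2 else 0) ≤
    K * ∑ x ∈ box n N, (if ∀ i j, R i j → x i ≤ x j then mu x * ∑ i : Fin n,
      (if x i < N then s x i * (f (x + Pi.single i 1) - f x) ^ 2 else 0) else 0)

/-- X8 (CGX): the comparison on the grid. (`F (y, q) = f (y ∘ q⁻¹)`: the exchanges cost nothing;
`(y, q) ↦ y ∘ q⁻¹` is injective over injective points and at most `n!` to one, and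
`x = y ∘ q⁻¹` is compatible with `R` if `q ∈ Lin R`.) -/
def S_X8 : Prop := S_CMP → S_X7 → ∀ (n N : ℕ) (R : Fin n → Fin n → Prop)
  (r : (Fin n → ℕ) → ℝ) (s : (Fin n → ℕ) → Fin n → ℝ) (K K' : ℝ),
  Wt n r s → 0 < K → K < K' → GI n N r s K → GR n N R r s K'

end Pool.Agent.J4H58.XC
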