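import Pool.Agent.J4H58.XC.Stm2

/-!
# Order constraints: from the grid to densities on the cube, and 1-symmetric densities (project XC)
-/

set_option autoImplicit false

namespace Pool.Agent.J4H58.XC

open MeasureTheory Set Filter Topology

variable {n : ℕ}

/-- partial derivative -/
noncomputable def pd (f : (Fin n → ℝ) → ℝ) (i : Fin n) (x : Fin n → ℝ) : ℝ :=
  fderiv ℝ f x (Pi.single i 1)

/-- square of the Euclidean norm of the gradient -/
noncomputable def gr (f : (Fin n → ℝ) → ℝ) (x : Fin n → ℝ) : ℝ := ∑ i, pd f i x ^ 2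

/-- Poincare inequality for the density `ρ` on `D`, not normalised -/
def PD (D : Set (Fin n → ℝ)) (ρ : (Fin n → ℝ) → ℝ) (K : ℝ) : Prop :=
  ∀ f : (Fin n → ℝ) → ℝ, ContDiff ℝ 1 f →
    (∫ x in D, ρ x) * (∫ x in D, ρ x * f x ^ 2) - (∫ x in D, ρ x * f x) ^ 2 ≤
      (∫ x in D, ρ x) * (K * ∫ x in D, ρ x * gr f x)

/-- the order cone -/
def ordc (R : Fin n → Fin n → Prop) : Set (Fin n → ℝ) := {x | ∀ i j, R i j → x i ≤ x j}

/-- grid points in the unit cube -/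
noncomputable def nd (N : ℕ) (x : Fin n → ℕ) : Fin n → ℝ := fun i => (x i : ℝ) / N

open Classical in
/-- weights of the points -/
noncomputable def rw (ρ : (Fin n → ℝ) → ℝ) (N : ℕ) (x : Fin n → ℕ) : ℝ :=
  if Function.Injective x ∧ ∀ i, x i < N then ρ (nd N x) else 0

/-- weights of the edges -/
noncomputable def sw (ρ : (Fin n → ℝ) → ℝ) (N : ℕ) (x : Fin n → ℕ) (_ : Fin n) : ℝ :=
  (N : ℝ) ^ 2 * ρ (nd N x)

/-- cell with the lower corner `x` -/
def cell (N : ℕ) (x : Fin n → ℕ) : Set (Fin n → ℝ) := Icc (nd N x) (nd N fun i => x i + 1)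

/-- the vertices of the cell -/
def vx (x : Fin n → ℕ) (A : Finset (Fin n)) : Fin n → ℕ := fun j => x j + if j ∈ A then 1 else 0

/-- the sum of the squares of the differences over the edges of the cell in direction `i` -/
def dE (f : (Fin n → ℕ) → ℝ) (x : Fin n → ℕ) (i : Fin n) : ℝ :=
  ∑ A ∈ (Finset.univ : Finset (Finset (Fin n))).filter (fun A => i ∉ A),
    (f (vx x A + Pi.single i 1) - f (vx x A)) ^ 2

/-- X9a (INT): interpolation. Let `θ` be `C¹` on `[0, 1]` with `θ 0 = 0`, `θ 1 = 1`, `θ' 0 = θ' 1 = 0`,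
`0 ≤ θ' ≤ 1 + η`, `θ (1 - t) = 1 - θ t` (`θ'` a trapezoid), and let `φ` be the `C¹` function
`φ v = θ (1 + v)` for `-1 ≤ v ≤ 0`, `φ v = 1 - θ v` for `0 ≤ v ≤ 1`, zero elsewhere;
`g u = ∑_{x ∈ {0..N}ⁿ} f x ∏_i φ (N u_i - x_i)`. On a cell `g u` is the mean of `f` over random vertices
(`j ∈ A` with probability `θ (N u_j - x_j)`, independent), so `(g u - f x)² ≤ n ∑ (edges)²`, and `pd g i` is
`N θ'` times the mean of the differences in direction `i`, whose square is at most the mean of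
the squares; integrate (`∫ θ = 1/2`). -/
def S_X9a : Prop := ∀ (n N : ℕ) (η : ℝ) (f : (Fin n → ℕ) → ℝ), 0 < N → 0 < η →
  ∃ g : (Fin n → ℝ) → ℝ, ContDiff ℝ 1 g ∧ ∀ x : Fin n → ℕ, (∀ i, x i < N) →
    (∀ u ∈ cell N x, (g u - f x) ^ 2 ≤ n * ∑ i, dE f x i) ∧
    ∀ i : Fin n, ∫ u in cell N x, pd g i u ^ 2 ≤
      (1 + η) ^ 2 * (N : ℝ) ^ 2 / ((N : ℝ) ^ n * 2 ^ (n - 1)) * dE f x i

/-- X9 (GRD): Poincare's inequality on the cube gives the one on fine grids. (On a cell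
`(f x - b)² ≤ (1 + δ) (g u - b)² + (1 + 1/δ) n ∑_i dE f x i`; the ratio of the values of `ρ` in a cell tends to
one uniformly; every edge belongs to at most `2^(n-1)` cells; the second term is
`O(N⁻²)` times the energy.) -/
def S_X9 : Prop := S_X9a → ∀ (n : ℕ) (ρ : (Fin n → ℝ) → ℝ) (K K' : ℝ), Continuous ρ →
  (∀ x, 0 < ρ x) → 0 < K → K < K' → PD (Icc 0 1) ρ K →
  ∀ᶠ N : ℕ in atTop, GI n N (rw ρ N) (sw ρ N) K'

/-- X10 (LIM): the limit of the inequalities on the grids which are compatible with `R`. (Write `N^(-n)` times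
the sums as integrals over the cube of functions which are constant on cells, bounded (`f` is Lipschitz on the cube)
and convergent almost everywhere; the points with a coordinate `N` are few. Use
`P ∑ r f² - (∑ r f)² ≤ P ∑ r (f - b)²`.) -/
def S_X10 : Prop := ∀ (n : ℕ) (R : Fin n → Fin n → Prop) (ρ : (Fin n → ℝ) → ℝ) (K : ℝ),
  (∀ a, ¬ R a a) → Continuous ρ → (∀ x, 0 < ρ x) → 0 < K →
  (∀ K', K < K' → ∀ᶠ N : ℕ in atTop, GR n N R (rw ρ N) (sw ρ N) K') →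
  PD (Icc 0 1 ∩ ordc R) ρ K

/-- the cube -/
def cu (n : ℕ) (L : ℝ) : Set (Fin n → ℝ) := Icc (fun _ => -L) fun _ => L

/-- the comparison theorem on the unit cube -/
def S_CQ : Prop := ∀ (n : ℕ) (R : Fin n → Fin n → Prop) (ρ : (Fin n → ℝ) → ℝ) (K : ℝ),
  (∀ a, ¬ R a a) → Continuous ρ → (∀ x, 0 < ρ x) →
  (∀ (x : Fin n → ℝ) (σ : Equiv.Perm (Fin n)), ρ (x ∘ σ) = ρ x) → 0 < K →
  PD (Icc 0 1) ρ K → PD (Icc 0 1 ∩ ordc R) ρ K

/-- X11 (SCL): the comparison on all cubes, by `x = -L + 2 L u` -/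
def S_X11 : Prop := S_CQ → ∀ (n : ℕ) (R : Fin n → Fin n → Prop) (ρ : (Fin n → ℝ) → ℝ) (K L : ℝ),
  (∀ a, ¬ R a a) → Continuous ρ → (∀ x, 0 < ρ x) →
  (∀ (x : Fin n → ℝ) (σ : Equiv.Perm (Fin n)), ρ (x ∘ σ) = ρ x) → 0 < K → 0 < L →
  PD (cu n L) ρ K → PD (cu n L ∩ ordc R) ρ K

/-! ### 1-symmetric log-concave densities -/

/-- `ρ` is log-concave, depends only on the absolute values of the coordinates and does not change when
the coordinates are permuted (the structure `SymDensity` of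
`Pool.Agent.Results.MP_6d896a_gt.OneSymmetric`) -/
structure Sd {n : ℕ} (ρ : EuclideanSpace ℝ (Fin n) → ℝ) : Prop where
  nonneg : ∀ x, 0 ≤ ρ x
  meas : Measurable ρ
  logc : ∀ x y, ∀ t : ℝ, 0 < t → t < 1 → ρ x ^ (1 - t) * ρ y ^ t ≤ ρ ((1 - t) • x + t • y)
  inv : ∀ σ : Equiv.Perm (Fin n), ∀ x y : EuclideanSpace ℝ (Fin n),
    (∀ i, |y i| = |x (σ i)|) → ρ y = ρ x

/-- the density on `Fin n → ℝ` -/
noncomputable def fl {n : ℕ} (ρ : EuclideanSpace ℝ (Fin n) → ℝ) (x : Fin n → ℝ) : ℝ :=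
  ρ (WithLp.toLp 2 x)

/-- X12 (CUB): the theorem on 1-symmetric densities (`Pool.Agent.Results.MP_6d896a_gt.OneSymmetric.result`,
import that file) for the normalised density `ρ 1_{cube} / Z` -/
def S_X12 : Prop := ∃ C : ℝ, 0 < C ∧ ∀ n : ℕ, 1 ≤ n → ∀ ρ : EuclideanSpace ℝ (Fin n) → ℝ,
  Sd ρ → Continuous ρ → (∀ x, 0 < ρ x) → ∀ L s : ℝ, 0 < L → 0 < s →
  (∀ i, ∫ x in cu n L, x i ^ 2 * fl ρ x ≤ s * ∫ x in cu n L, fl ρ x) →
  PD (cu n L) (fl ρ) (C * s)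

/-- X13 (REG): regularisation by `r k x = sup_y ρ y exp (-k ‖x - y‖)` (`log (r k)` is `k`-Lipschitz;
`ρ y ≤ ρ 0`; the limit holds at the points of continuity of `ρ`, that is off the frontier of the convex
set `{ρ > 0}`) -/
def S_X13 : Prop := ∀ (n : ℕ) (ρ : EuclideanSpace ℝ (Fin n) → ℝ), 1 ≤ n → Sd ρ → (∃ x, 0 < ρ x) →
  ∃ r : ℕ → EuclideanSpace ℝ (Fin n) → ℝ, (∀ k, Sd (r k)) ∧ (∀ k, Continuous (r k)) ∧
    (∀ k x, 0 < r k x) ∧ (∃ M, ∀ k x, r k x ≤ M) ∧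
    ∀ᵐ x, Tendsto (fun k => r k x) atTop (𝓝 (ρ x))

/-- X14 (LIM2): `k → ∞`, then `L → ∞` (for `s' > s`, `L` large and then `k` large the hypothesis on the second
moments holds with `s'`; then `s' → s`) -/
def S_X14 : Prop := ∀ (n : ℕ) (ρ : EuclideanSpace ℝ (Fin n) → ℝ)
  (r : ℕ → EuclideanSpace ℝ (Fin n) → ℝ) (R : Fin n → Fin n → Prop) (C s : ℝ), 1 ≤ n → Sd ρ →
  Integrable (fl ρ) → ∫ x, fl ρ x = 1 → (∀ i, Integrable fun x : Fin n → ℝ => x i ^ 2 * fl ρ x) →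
  (∀ i, ∫ x : Fin n → ℝ, x i ^ 2 * fl ρ x ≤ s) → 0 < s → 0 < C →
  (∀ k, Continuous (r k)) → (∀ k x, 0 < r k x) → (∃ M, ∀ k x, r k x ≤ M) →
  (∀ᵐ x, Tendsto (fun k => r k x) atTop (𝓝 (ρ x))) →
  (∀ (k : ℕ) (L s' : ℝ), 0 < L → 0 < s' →
    (∀ i, ∫ x in cu n L, x i ^ 2 * fl (r k) x ≤ s' * ∫ x in cu n L, fl (r k) x) →
    PD (cu n L ∩ ordc R) (fl (r k)) (C * s')) →
  ∀ f : (Fin n → ℝ) → ℝ, ContDiff ℝ 1 f → HasCompactSupport f →
    (∫ x in ordc R, fl ρ x) * (∫ x in ordc R, fl ρ x * f x ^ 2) -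
      (∫ x in ordc R, fl ρ x * f x) ^ 2 ≤
    (∫ x in ordc R, fl ρ x) * (C * s * ∫ x in ordc R, fl ρ x * gr f x)

/-- X15 (SYM): the mean of a symmetric function over the cone (`(Fin n → ℝ)` is, up to a null set, the
disjoint union of the `n!` Weyl chambers, which are exchanged by the permutations; the cone of `R` is the
union of the chambers of the linear extensions of `R`) -/
def S_X15 : Prop := ∀ (n : ℕ) (R : Fin n → Fin n → Prop) (G : (Fin n → ℝ) → ℝ), (∀ a, ¬ R a a) →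
  Integrable G → (∀ (x : Fin n → ℝ) (σ : Equiv.Perm (Fin n)), G (x ∘ σ) = G x) →
  ∫ x in ordc R, G x = (Nat.card (Lin R) : ℝ) / n.factorial * ∫ x, G x

/-- X16 (LEX): a strict partial order has a linear extension -/
def S_X16 : Prop := ∀ (n : ℕ) (R : Fin n → Fin n → Prop), (∀ a, ¬ R a a) →
  (∀ a b c, R a b → R b c → R a c) → (Lin R).Nonempty

end Pool.Agent.J4H58.XC
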