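import Pool.Agent.J4H58.XC.Stm4

/-!
# The comparison theorem for all permutation invariant log-concave measures (project XC)

If a permutation invariant log-concave measure has Poincare constant at most `K`, so has the measure
conditioned on any order cone.
-/

set_option autoImplicit false

namespace Pool.Agent.J4H58.XC

open MeasureTheory Set Filter Topology ProbabilityTheory
open scoped ENNReal InnerProductSpace
open Pool.Agent.W695.KH (Eu)
open Pool.Agent.J4H58.OC (ordE LDn PI)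

/-- permutation invariant log-concave probability density -/
structure Ex {n : ℕ} (ρ : Eu (Fin n) → ℝ) : Prop where
  ld : LDn ρ
  perm : ∀ (σ : Equiv.Perm (Fin n)) (x : Eu (Fin n)),
    ρ (WithLp.toLp 2 fun i => x (σ i)) = ρ x

/-- triangle wave: `t` for `|t| ≤ L`, period `4 L` -/
noncomputable def tw (L t : ℝ) : ℝ := 2 * L / Real.pi * Real.arcsin (Real.sin (Real.pi * t / (2 * L)))

/-- A1 (SMF): the measure folded into the cube has the same Poincare constant. (Apply `PI` to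
`f ∘ φ_η`, `φ_η t = 2 L / π * arcsin ((1 - η) sin (π t / (2 L)))` in each coordinate, which is smooth
with derivative at most one in absolute value, and let `η → 0`; everything is bounded.) -/
def S_A1 : Prop := ∀ (n : ℕ) (μ : Measure (Eu (Fin n))), IsProbabilityMeasure μ → ∀ K L : ℝ, 0 < K →
  0 < L → PI μ K → ∀ f : (Fin n → ℝ) → ℝ, ContDiff ℝ 1 f →
  (∫ x, f (fun i => tw L (x i)) ^ 2 ∂μ) - (∫ x, f (fun i => tw L (x i)) ∂μ) ^ 2 ≤
    K * ∫ x, gr f (fun i => tw L (x i)) ∂μ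

/-- A2 (FDN): the density of the folded measure,
`r x = ∑_{m ∈ ℤⁿ} ρ (fun i => 2 L m_i + (-1)^(m_i) x_i)` -/
def S_A2 : Prop := ∀ (n : ℕ) (ρ : (Fin n → ℝ) → ℝ) (A b L : ℝ), Continuous ρ → (∀ x, 0 < ρ x) →
  0 < b → (∀ x, ρ x ≤ A * Real.exp (-b * ∑ i, |x i|)) → 0 < L →
  (∀ (x : Fin n → ℝ) (σ : Equiv.Perm (Fin n)), ρ (x ∘ σ) = ρ x) →
  ∃ r : (Fin n → ℝ) → ℝ, Continuous r ∧ (∀ x, 0 < r x) ∧
    (∀ (x : Fin n → ℝ) (σ : Equiv.Perm (Fin n)), r (x ∘ σ) = r x) ∧
    (∀ x, ρ x ≤ r x) ∧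
    ∀ G : (Fin n → ℝ) → ℝ, Continuous G →
      ∫ x, ρ x * G (fun i => tw L (x i)) = ∫ x in cu n L, r x * G x

/-- A3 (GCV): convolution with a narrow Gaussian (`Var` of the convolution is at most
`K E |∇f|² + ε E |∇f|²`: condition on the Gaussian variable, Gaussian Poincare inequality; the
exponential bound from `ρ x ≤ A exp (-b |x|)`, which holds for log-concave densities) -/
def S_A3 : Prop := ∀ (n : ℕ) (ρ : Eu (Fin n) → ℝ) (K ε : ℝ), 1 ≤ n → Ex ρ → 0 < K →
  PI (volume.withDensity fun x => ENNReal.ofReal (ρ x)) K → 0 < ε →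
  ∃ r : Eu (Fin n) → ℝ, Continuous r ∧ (∀ x, 0 < r x) ∧ Integrable r ∧ ∫ x, r x = 1 ∧
    (∀ (σ : Equiv.Perm (Fin n)) (x : Eu (Fin n)),
      r (WithLp.toLp 2 fun i => x (σ i)) = r x) ∧
    (∃ A b : ℝ, 0 < b ∧ ∀ x, r x ≤ A * Real.exp (-b * ∑ i, |x i|)) ∧
    PI (volume.withDensity fun x => ENNReal.ofReal (r x)) (K + ε) ∧
    ∫ x, |r x - ρ x| ≤ ε

/-- A4 (EXC): the comparison theorem for permutation invariant log-concave measures -/
def S_A4 : Prop := ∀ (n : ℕ) (ρ : Eu (Fin n) → ℝ) (R : Fin n → Fin n → Prop) (K : ℝ), 1 ≤ n →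
  Ex ρ → 0 < K → PI (volume.withDensity fun x => ENNReal.ofReal (ρ x)) K →
  (∀ a b, R a b → R b a → a = b) → (∀ a b c, R a b → R b c → R a c) →
  LDn (rR ρ R) ∧ PI (volume.withDensity fun x => ENNReal.ofReal (rR ρ R x)) K

end Pool.Agent.J4H58.XC
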